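import Pool.Agent.L5helper18.DD.TreeG

/-!
# A hypergraph with few edges and few minimal transversals all of whose balanced communication
matrices have large rank
-/

set_option autoImplicit false

open Finset

namespace Pool.Agent.L5helper18.DD

theorem mux_one {V I : Type} {u : I → V} {h : I → Finset V → Prop} {S : Finset V} {i₀ : I}
    (hu : ∀ i, u i ∈ S ↔ i = i₀) : mux u h S ↔ h i₀ S := by
  unfold mux
  constructor
  · rintro (⟨i, j, hij, hi, hj⟩ | ⟨i, hi, hh⟩)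
    · exact absurd (((hu i).1 hi).trans ((hu j).1 hj).symm) hij
    · rwa [(hu i).1 hi] at hh
  · intro hh
    exact Or.inr ⟨i₀, (hu _).2 rfl, hh⟩

/-- the communication relation of `f` for the vertex set `A` of the first player -/
def cm {V : Type} [Fintype V] [DecidableEq V] (f : Finset V → Prop) (A : Finset V)
    (S : {S : Finset V // S ⊆ A}) (S' : {S : Finset V // S ⊆ Aᶜ}) : Prop := f (S.1 ∪ S'.1)

/-- the group of shifts -/
abbrev Sh (j : ℕ) : Type := ZMod (2 ^ j) × ZMod (2 ^ j)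

/-- the vertices: two kinds of selectors and the data vertices -/
abbrev Wx (j : ℕ) : Type := (ZMod (2 ^ j) ⊕ ZMod (2 ^ j)) ⊕ (Sh j × Bool)

instance instNeZeroPow (j : ℕ) : NeZero (2 ^ j) := ⟨by positivity⟩

theorem card_Sh (j : ℕ) : Fintype.card (Sh j) = 4 ^ j := by
  rw [Fintype.card_prod, ZMod.card, ← mul_pow]
  norm_num

theorem card_Wx (j : ℕ) : Fintype.card (Wx j) = 2 * 4 ^ j + 2 * 2 ^ j := by
  rw [Fintype.card_sum, Fintype.card_sum, Fintype.card_prod, card_Sh, ZMod.card,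
    Fintype.card_bool]
  ring

section

variable {j : ℕ} (e : Sh j ≃ Lf j)

/-- the tree function for the shift `r` -/
def fr (r : Sh j) (S : Finset (Wx j)) : Prop :=
  G j fun q => (Sum.inr (e.symm q, false) : Wx j) ∈ S ∨ (Sum.inr (e.symm q + r, true) : Wx j) ∈ S

/-- the function -/
def FB : Finset (Wx j) → Prop :=
  mux (fun r₁ => Sum.inl (Sum.inl r₁)) fun r₁ => mux (fun r₂ => Sum.inl (Sum.inr r₂)) fun r₂ =>
    fr e (r₁, r₂)

theorem FB_rep : Rep (FB e) (1 + 2 ^ j * (1 + 2 ^ j * Cn j))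
    ((2 ^ j) ^ 2 + 2 ^ j * ((2 ^ j) ^ 2 + 2 ^ j * Dn j)) := by
  have h1 : ∀ r, Rep (fr e r) (Cn j) (Dn j) := fun r =>
    Rep.G j (fun q S => (Sum.inr (e.symm q, false) : Wx j) ∈ S ∨
      (Sum.inr (e.symm q + r, true) : Wx j) ∈ S) fun q => (Rep.var _).or (Rep.var _)
  have h2 : ∀ r₁, Rep (mux (fun r₂ => (Sum.inl (Sum.inr r₂) : Wx j)) fun r₂ => fr e (r₁, r₂))
      (1 + 2 ^ j * Cn j) ((2 ^ j) ^ 2 + 2 ^ j * Dn j) := by
    intro r₁
    have := Rep.mux (fun r₂ => (Sum.inl (Sum.inr r₂) : Wx j)) (fun r₂ => fr e (r₁, r₂))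
      fun r₂ => h1 _
    rwa [ZMod.card] at this
  have h3 := Rep.mux (fun r₁ => (Sum.inl (Sum.inl r₁) : Wx j)) _ h2
  rwa [ZMod.card] at h3

/-- the indicator of the set described by `a` -/
def tsb (r : Sh j) (a : Lf j → Bool) : Wx j → Bool
  | Sum.inl (Sum.inl r₁) => decide (r₁ = r.1)
  | Sum.inl (Sum.inr r₂) => decide (r₂ = r.2)
  | Sum.inr (x, false) => a (e x)
  | Sum.inr (x, true) => a (e (x - r))

/-- the set described by `a` -/
def Ts (r : Sh j) (a : Lf j → Bool) : Finset (Wx j) := univ.filter fun v => tsb e r a v = true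

theorem mem_Ts (r : Sh j) (a : Lf j → Bool) (v : Wx j) : v ∈ Ts e r a ↔ tsb e r a v = true := by
  unfold Ts
  rw [mem_filter]
  exact and_iff_right (mem_univ _)

/-- the owner of the pair of the leaf `q` -/
def ow (r : Sh j) (A : Finset (Wx j)) (q : Lf j) : Own :=
  if (Sum.inr (e.symm q, false) : Wx j) ∈ A then
    (if (Sum.inr (e.symm q + r, true) : Wx j) ∈ A then .alice else .split)
  else (if (Sum.inr (e.symm q + r, true) : Wx j) ∈ A then .split else .bob)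

theorem FB_val (r : Sh j) (A : Finset (Wx j)) (a b : Lf j → Bool) :
    FB e ((A ∩ Ts e r a) ∪ (Aᶜ ∩ Ts e r b)) ↔ mG j (ow e r A) a b := by
  have hsel1 : ∀ r₁, (Sum.inl (Sum.inl r₁) : Wx j) ∈ (A ∩ Ts e r a) ∪ (Aᶜ ∩ Ts e r b) ↔
      r₁ = r.1 := by
    intro r₁
    rw [mem_union, mem_inter, mem_inter, mem_compl, mem_Ts, mem_Ts]
    simp only [tsb, decide_eq_true_eq]
    tauto
  have hsel2 : ∀ r₂, (Sum.inl (Sum.inr r₂) : Wx j) ∈ (A ∩ Ts e r a) ∪ (Aᶜ ∩ Ts e r b) ↔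
      r₂ = r.2 := by
    intro r₂
    rw [mem_union, mem_inter, mem_inter, mem_compl, mem_Ts, mem_Ts]
    simp only [tsb, decide_eq_true_eq]
    tauto
  have h0 : ∀ q, (Sum.inr (e.symm q, false) : Wx j) ∈ (A ∩ Ts e r a) ∪ (Aᶜ ∩ Ts e r b) ↔
      ((Sum.inr (e.symm q, false) : Wx j) ∈ A ∧ a q = true) ∨
      ((Sum.inr (e.symm q, false) : Wx j) ∉ A ∧ b q = true) := by
    intro q
    rw [mem_union, mem_inter, mem_inter, mem_compl, mem_Ts, mem_Ts]
    simp only [tsb, Equiv.apply_symm_apply]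
  have h1 : ∀ q, (Sum.inr (e.symm q + r, true) : Wx j) ∈ (A ∩ Ts e r a) ∪ (Aᶜ ∩ Ts e r b) ↔
      ((Sum.inr (e.symm q + r, true) : Wx j) ∈ A ∧ a q = true) ∨
      ((Sum.inr (e.symm q + r, true) : Wx j) ∉ A ∧ b q = true) := by
    intro q
    rw [mem_union, mem_inter, mem_inter, mem_compl, mem_Ts, mem_Ts]
    simp only [tsb, add_sub_cancel_right, Equiv.apply_symm_apply]
  unfold FB
  rw [mux_one hsel1, mux_one hsel2]
  unfold fr mG
  have : (fun q => (Sum.inr (e.symm q, false) : Wx j) ∈ (A ∩ Ts e r a) ∪ (Aᶜ ∩ Ts e r b) ∨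
      (Sum.inr (e.symm q + (r.1, r.2), true) : Wx j) ∈ (A ∩ Ts e r a) ∪ (Aᶜ ∩ Ts e r b)) =
      fun q => val (ow e r A q) (a q) (b q) := by
    ext q
    rw [h0, Prod.mk.eta, h1]
    unfold ow
    by_cases c0 : (Sum.inr (e.symm q, false) : Wx j) ∈ A <;>
      by_cases c1 : (Sum.inr (e.symm q + r, true) : Wx j) ∈ A <;>
      simp only [c0, c1, if_true, if_false, val, true_and, false_and, not_true_eq_false,
        not_false_eq_true, or_false, false_or, or_self]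
    tauto
  rw [this]

theorem rk_FB (K : Type) [Field K] (r : Sh j) (A : Finset (Wx j)) :
    rk K (mG j (ow e r A)) ≤ rk K (cm (FB e) A) :=
  rk_sub K (fun a => ⟨A ∩ Ts e r a, inter_subset_left⟩)
    (fun b => ⟨Aᶜ ∩ Ts e r b, inter_subset_left⟩) fun a b => (FB_val e r A a b).symm

/-- some shift splits many pairs -/
theorem exists_shift (hj : 4 ≤ j) (A : Finset (Wx j)) (h1 : Fintype.card (Wx j) ≤ 3 * A.card)
    (h2 : 3 * A.card ≤ 2 * Fintype.card (Wx j)) :
    ∃ r : Sh j, 2 * 4 ^ j ≤ 5 * cnt j (ow e r A) := by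
  classical
  by_contra hcon
  push Not at hcon
  let a : Sh j → ℤ := fun p => if (Sum.inr (p, false) : Wx j) ∈ A then 1 else 0
  let b : Sh j → ℤ := fun p => if (Sum.inr (p, true) : Wx j) ∈ A then 1 else 0
  set α : ℤ := ∑ p, a p with hα
  set β : ℤ := ∑ p, b p with hβ
  let c₁ : ZMod (2 ^ j) → ℤ := fun p => if (Sum.inl (Sum.inl p) : Wx j) ∈ A then 1 else 0
  let c₂ : ZMod (2 ^ j) → ℤ := fun p => if (Sum.inl (Sum.inr p) : Wx j) ∈ A then 1 else 0
  have hA : (A.card : ℤ) = (∑ p, c₁ p + ∑ p, c₂ p) + (α + β) := by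
    have e1 : A.card = ∑ v : Wx j, if v ∈ A then 1 else 0 := by
      rw [sum_boole]
      simp
    rw [e1]
    push_cast
    rw [Fintype.sum_sum_type, Fintype.sum_sum_type, Fintype.sum_prod_type, hα, hβ]
    congr 1
    rw [← sum_add_distrib]
    refine sum_congr rfl fun p _ => ?_
    rw [Fintype.sum_bool]
    simp only [a, b]
    ring
  have hc : ∀ c : ZMod (2 ^ j) → ℤ, (∀ p, c p = 0 ∨ c p = 1) →
      0 ≤ ∑ p, c p ∧ ∑ p, c p ≤ 2 ^ j := by
    intro c hc
    constructor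
    · exact sum_nonneg fun p _ => by rcases hc p with h | h <;> rw [h] <;> norm_num
    · calc ∑ p, c p ≤ ∑ _p : ZMod (2 ^ j), (1 : ℤ) :=
            sum_le_sum fun p _ => by rcases hc p with h | h <;> rw [h]; norm_num
        _ = 2 ^ j := by
            rw [sum_const, card_univ, ZMod.card]
            simp
  obtain ⟨hc1, hc1'⟩ := hc c₁ fun p => by simp only [c₁]; split_ifs <;> simp
  obtain ⟨hc2, hc2'⟩ := hc c₂ fun p => by simp only [c₂]; split_ifs <;> simp
  have hcardS : (Fintype.card (Sh j) : ℤ) = 4 ^ j := by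
    rw [card_Sh]
    push_cast
    rfl
  have hcnt : ∀ r : Sh j, (cnt j (ow e r A) : ℤ) =
      ∑ p, (a p * (1 - b (p + r)) + (1 - a p) * b (p + r)) := by
    intro r
    rw [cnt_eq, card_filter]
    push_cast
    rw [← Equiv.sum_comp e]
    refine sum_congr rfl fun p _ => ?_
    simp only [a, b, ow, Equiv.symm_apply_apply]
    by_cases c0 : (Sum.inr (p, false) : Wx j) ∈ A <;>
      by_cases c1 : (Sum.inr (p + r, true) : Wx j) ∈ A <;> simp [c0, c1]
  have sh : ∀ p : Sh j, ∑ r, b (p + r) = β := by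
    intro p
    rw [hβ]
    exact Fintype.sum_equiv (Equiv.addLeft p) _ _ fun r => rfl
  have hsum : ∑ r : Sh j, (cnt j (ow e r A) : ℤ) = α * (4 ^ j - β) + (4 ^ j - α) * β := by
    rw [sum_congr rfl fun r _ => hcnt r, sum_comm]
    have : ∀ p : Sh j, ∑ r, (a p * (1 - b (p + r)) + (1 - a p) * b (p + r)) =
        a p * (4 ^ j - β) + (1 - a p) * β := by
      intro p
      rw [sum_add_distrib, ← mul_sum, ← mul_sum, sh p, sum_sub_distrib, sh p, sum_const,
        card_univ]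
      simp only [nsmul_eq_mul, mul_one]
      rw [hcardS]
    rw [sum_congr rfl fun p _ => this p, sum_add_distrib, ← sum_mul, ← sum_mul,
      sum_sub_distrib, sum_const, card_univ]
    simp only [nsmul_eq_mul, mul_one]
    rw [hcardS]
  have hlt : 5 * ∑ r : Sh j, (cnt j (ow e r A) : ℤ) < 4 ^ j * (2 * 4 ^ j) := by
    rw [mul_sum]
    calc ∑ r : Sh j, 5 * (cnt j (ow e r A) : ℤ) < ∑ _r : Sh j, (2 * 4 ^ j : ℤ) := by
          refine sum_lt_sum_of_nonempty ⟨0, mem_univ _⟩ fun r _ => ?_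
          exact_mod_cast hcon r
      _ = 4 ^ j * (2 * 4 ^ j) := by
          rw [sum_const, card_univ]
          simp only [nsmul_eq_mul]
          rw [hcardS]
  rw [hsum] at hlt
  have hm : (16 : ℤ) ≤ 2 ^ j := by
    calc (16 : ℤ) = 2 ^ 4 := by norm_num
      _ ≤ 2 ^ j := pow_le_pow_right₀ (by norm_num) hj
  have hM : (4 : ℤ) ^ j = 2 ^ j * 2 ^ j := by rw [← mul_pow]; norm_num
  have k1 : (2 * 4 ^ j + 2 * 2 ^ j : ℤ) ≤ 3 * A.card := by
    rw [card_Wx] at h1
    exact_mod_cast h1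
  have k2 : (3 * A.card : ℤ) ≤ 2 * (2 * 4 ^ j + 2 * 2 ^ j) := by
    rw [card_Wx] at h2
    exact_mod_cast h2
  set M : ℤ := 4 ^ j
  set m : ℤ := 2 ^ j
  have hmM : 16 * m ≤ M := by nlinarith
  have k3 : 7 * M ≤ 12 * (α + β) := by linarith
  have k4 : 12 * (α + β) ≤ 17 * M := by linarith
  nlinarith [mul_nonneg (sub_nonneg.2 k3) (sub_nonneg.2 k4), sq_nonneg (α - β), sq_nonneg M,
    mul_pos (show (0 : ℤ) < M by linarith) (show (0 : ℤ) < M by linarith)]

/-- **the rank for every balanced vertex set** -/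
theorem rank_bal (hj : 4 ≤ j) (K : Type) [Field K] (A : Finset (Wx j))
    (h1 : Fintype.card (Wx j) ≤ 3 * A.card) (h2 : 3 * A.card ≤ 2 * Fintype.card (Wx j)) :
    ∃ k : ℕ, 3 * 4 ^ j ≤ 320 * k ∧ 2 ^ k + 1 ≤ rk K (cm (FB e) A) := by
  obtain ⟨r, hr⟩ := exists_shift e hj A h1 h2
  obtain ⟨s, rfl⟩ : ∃ s, j = 2 + s := ⟨j - 2, by omega⟩
  have h3 := cnt_le 2 s (ow e r A)
  have h4 : (4 : ℕ) ^ (2 + s) = 16 * 4 ^ s := by rw [pow_add]; norm_num
  have hpos : 0 < cnt (2 + s) (ow e r A) := by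
    have : 0 < (4 : ℕ) ^ s := by positivity
    omega
  refine ⟨kap (2 + s) (ow e r A), ?_, ((rank_tree K _ _ hpos).1).trans (rk_FB e K r A)⟩
  norm_num at h3
  omega

end

end Pool.Agent.L5helper18.DD
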