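import Pool.Agent.L5helper18.DD.Vtree

/-!
# Deterministic structured circuits, and the assembly of the lower bound
-/

set_option autoImplicit false
set_option linter.unusedSectionVars false

open Finset

namespace Pool.Agent.L5helper18.DD

/-- `DSNNF C τ g`: the function `g` is computed by a deterministic decomposable circuit structured by
the tree `τ`, all of whose gates compute functions in `C` -/
inductive DSNNF {V : Type} [DecidableEq V] (C : Set (Finset V → Prop)) :
    VTree V → (Finset V → Prop) → Prop
  | const (τ : VTree V) (b : Prop) (hC : (fun _ => b) ∈ C) : DSNNF C τ fun _ => b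
  | pos (v : V) (hC : (fun S => v ∈ S) ∈ C) : DSNNF C (.leaf v) fun S => v ∈ S
  | neg (v : V) (hC : (fun S => v ∉ S) ∈ C) : DSNNF C (.leaf v) fun S => v ∉ S
  | left (l r : VTree V) (g : Finset V → Prop) (hg : DSNNF C l g) : DSNNF C (.node l r) g
  | right (l r : VTree V) (g : Finset V → Prop) (hg : DSNNF C r g) : DSNNF C (.node l r) g
  | or (τ : VTree V) (g h : Finset V → Prop) (hg : DSNNF C τ g) (hh : DSNNF C τ h)
      (hd : ∀ S, ¬ (g S ∧ h S)) (hC : (fun S => g S ∨ h S) ∈ C) : DSNNF C τ fun S => g S ∨ h S
  | and (l r : VTree V) (g h : Finset V → Prop) (hg : DSNNF C l g) (hh : DSNNF C r h)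
      (hC : (fun S => g S ∧ h S) ∈ C) : DSNNF C (.node l r) fun S => g S ∧ h S

section

variable {V : Type} [Fintype V] [DecidableEq V] (K : Type) [Field K]

open Classical in
/-- the indicator function -/
noncomputable def ind (g : Finset V → Prop) : Finset V → K := fun S => if g S then 1 else 0

theorem ind_spec (g : Finset V → Prop) (S : Finset V) :
    (g S → ind K g S = 1) ∧ (¬ g S → ind K g S = 0) := by
  unfold ind
  exact ⟨fun h => if_pos h, fun h => if_neg h⟩

/-- the space of the functions computed at the subtree -/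
def Wsp (C : Set (Finset V → Prop)) (τ : VTree V) : Submodule K (Finset V → K) :=
  Submodule.span K {F | ∃ g, DSNNF C τ g ∧ F = ind K g}

theorem DSNNF.mem {C : Set (Finset V → Prop)} {τ : VTree V} {g : Finset V → Prop}
    (h : DSNNF C τ g) : g ∈ C := by
  induction h <;> assumption

theorem finrank_Wsp (C : Finset (Finset V → Prop)) (τ : VTree V) :
    Module.finrank K (Wsp K (C : Set (Finset V → Prop)) τ) ≤ C.card := by
  classical
  have hle : Wsp K (C : Set (Finset V → Prop)) τ ≤
      Submodule.span K ((C.image (ind K) : Finset (Finset V → K)) : Set (Finset V → K)) := by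
    refine Submodule.span_mono ?_
    rintro F ⟨g, hg, rfl⟩
    rw [Finset.coe_image]
    exact ⟨g, hg.mem, rfl⟩
  calc _ ≤ _ := Submodule.finrank_mono hle
    _ ≤ (C.image (ind K)).card := finrank_span_finset_le_card _
    _ ≤ C.card := card_image_le

theorem structured_Wsp (C : Finset (Finset V → Prop)) (τ : VTree V) :
    Structured K C.card τ (Wsp K (C : Set (Finset V → Prop)) τ) := by
  classical
  induction τ with
  | leaf v =>
    refine Structured.leaf v _ (finrank_Wsp K C _) ?_
    have hle : Wsp K (C : Set (Finset V → Prop)) (.leaf v) ≤ Dep K {v} := by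
      unfold Wsp
      rw [Submodule.span_le]
      rintro F ⟨g, hg, rfl⟩
      have key : ∀ (τ : VTree V) (g : Finset V → Prop), DSNNF (C : Set (Finset V → Prop)) τ g →
          τ = .leaf v → ∀ S, g S ↔ g (S ∩ {v}) := by
        intro τ g hg
        induction hg with
        | const τ b hC => exact fun _ S => Iff.rfl
        | pos w hC =>
          intro h S
          cases h
          simp
        | neg w hC =>
          intro h S
          cases h
          simp
        | left l r g hg ih => exact fun h => nomatch h
        | right l r g hg ih => exact fun h => nomatch h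
        | or τ g h hg hh hd hC ih1 ih2 =>
          intro hτ S
          exact or_congr (ih1 hτ S) (ih2 hτ S)
        | and l r g h hg hh hC ih1 ih2 => exact fun h => nomatch h
      intro S
      unfold ind
      rw [if_congr (key _ g hg rfl S) rfl rfl]
    exact fun g hg => hle hg
  | node l r ihl ihr =>
    refine Structured.node l r _ _ _ ihl ihr (finrank_Wsp K C _) ?_
    unfold Wsp
    rw [Submodule.span_le]
    rintro F ⟨g, hg, rfl⟩
    show ind K g ∈ prodSpan (addOne (Wsp K (C : Set (Finset V → Prop)) l))
      (addOne (Wsp K (C : Set (Finset V → Prop)) r))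
    have one_mem : ∀ W : Submodule K (Finset V → K), (fun _ => 1 : Finset V → K) ∈ addOne W :=
      fun W => Submodule.mem_sup_right (Submodule.mem_span_singleton_self _)
    have key : ∀ (τ : VTree V) (g : Finset V → Prop), DSNNF (C : Set (Finset V → Prop)) τ g →
        τ = .node l r → ind K g ∈ prodSpan (addOne (Wsp K (C : Set (Finset V → Prop)) l))
          (addOne (Wsp K (C : Set (Finset V → Prop)) r)) := by
      intro τ g hg
      induction hg with
      | const τ b hC =>
        intro _
        by_cases hb : b
        · refine Submodule.subset_span ⟨_, one_mem _, _, one_mem _, ?_⟩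
          ext S
          simp [ind, hb]
        · have : ind K (fun _ : Finset V => b) = 0 := by
            ext S
            simp [ind, hb]
          rw [this]
          exact Submodule.zero_mem _
      | pos w hC => exact fun h => nomatch h
      | neg w hC => exact fun h => nomatch h
      | left l' r' g hg ih =>
        intro h
        cases h
        refine Submodule.subset_span ⟨ind K g, Submodule.mem_sup_left
          (Submodule.subset_span ⟨g, hg, rfl⟩), _, one_mem _, ?_⟩
        ext S
        simp
      | right l' r' g hg ih =>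
        intro h
        cases h
        refine Submodule.subset_span ⟨_, one_mem _, ind K g, Submodule.mem_sup_left
          (Submodule.subset_span ⟨g, hg, rfl⟩), ?_⟩
        ext S
        simp
      | or τ g h hg hh hd hC ih1 ih2 =>
        intro hτ
        have : ind K (fun S => g S ∨ h S) = ind K g + ind K h := by
          ext S
          have := hd S
          simp only [ind, Pi.add_apply]
          by_cases h1 : g S <;> by_cases h2 : h S <;> simp_all
        rw [this]
        exact Submodule.add_mem _ (ih1 hτ) (ih2 hτ)
      | and l' r' g h hg hh hC ih1 ih2 =>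
        intro hτ
        cases hτ
        refine Submodule.subset_span ⟨ind K g, Submodule.mem_sup_left
          (Submodule.subset_span ⟨g, hg, rfl⟩), ind K h, Submodule.mem_sup_left
          (Submodule.subset_span ⟨h, hh, rfl⟩), ?_⟩
        ext S
        simp only [ind]
        by_cases h1 : g S <;> by_cases h2 : h S <;> simp [h1, h2]
    exact key _ g hg rfl

end

/-- the size bounds -/
theorem size_bound (j : ℕ) (hj : 4 ≤ j) :
    (1 + 2 ^ j * (1 + 2 ^ j * Cn j)) + ((2 ^ j) ^ 2 + 2 ^ j * ((2 ^ j) ^ 2 + 2 ^ j * Dn j)) ≤
      2 ^ (3 * 2 ^ j) := by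
  have hm : 16 ≤ 2 ^ j := by
    calc 16 = 2 ^ 4 := by norm_num
      _ ≤ 2 ^ j := Nat.pow_le_pow_right (by norm_num) hj
  have hC := Cn_eq j
  have hD := Dn_eq j
  set m := 2 ^ j with hmdef
  have h1 : ∀ n : ℕ, 16 ≤ n → n ^ 2 ≤ 2 ^ n := by
    intro n hn
    induction n, hn using Nat.le_induction with
    | base => norm_num
    | succ n hn ih =>
      rw [pow_succ 2 n]
      nlinarith
  have h2 : ∀ n : ℕ, 16 ≤ n → 16 * n ≤ 4 ^ n := by
    intro n hn
    induction n, hn using Nat.le_induction with
    | base => norm_num
    | succ n hn ih =>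
      rw [pow_succ 4 n]
      omega
  have h3 := h1 m hm
  have h4 := h2 m hm
  have e : (2 : ℕ) ^ (3 * m) = 4 ^ m * 2 ^ m := by
    rw [show (4 : ℕ) = 2 ^ 2 by norm_num, ← pow_mul, ← pow_add]
    congr 1
    ring
  rw [e]
  set Q := 4 ^ m
  have h5 : m ^ 2 * Q ≤ Q * 2 ^ m := by
    rw [mul_comm]
    exact Nat.mul_le_mul_left _ h3
  refine le_trans ?_ h5
  have e1 : 4 * ((1 + m * (1 + m * Cn j)) + (m ^ 2 + m * (m ^ 2 + m * Dn j))) =
      4 * (1 + m + m ^ 2 + m ^ 3) + m ^ 2 * (4 * Cn j) + 2 * (m ^ 2 * (2 * Dn j)) := by ring
  rw [hC, hD] at e1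
  have h6 : 4 * (1 + m + m ^ 2 + m ^ 3) ≤ 16 * m ^ 3 := by
    have : 1 ≤ m := by omega
    nlinarith [Nat.mul_le_mul this this, pow_le_pow_right₀ this (show 1 ≤ 3 by norm_num),
      pow_le_pow_right₀ this (show 2 ≤ 3 by norm_num), pow_le_pow_right₀ this (show 0 ≤ 3 by norm_num)]
  have h7 : 16 * m ^ 3 ≤ m ^ 2 * Q := by
    calc 16 * m ^ 3 = m ^ 2 * (16 * m) := by ring
      _ ≤ m ^ 2 * Q := Nat.mul_le_mul_left _ h4
  have h8 : 4 * ((1 + m * (1 + m * Cn j)) + (m ^ 2 + m * (m ^ 2 + m * Dn j))) ≤
      4 * (m ^ 2 * Q) := by
    rw [e1]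
    linarith
  omega

end Pool.Agent.L5helper18.DD
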