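import Pool.Agent.L5helper18.DD.Rep

/-!
# Ordered decision diagrams: an exponential lower bound for every order
-/

set_option autoImplicit false
set_option linter.unusedSectionVars false

open Finset

namespace Pool.Agent.L5helper18.DD

/-- A diagram with the set `Q` of states: it reads the vertices of `V` one after the other; `step i q b`
is the state after the `i`-th vertex if the state was `q` and `b` says if the vertex is in the set. -/
structure Diagram (Q : Type) where
  start : Q
  step : ℕ → Q → Bool → Q
  acc : Set Q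

/-- the state after the vertices of the list `l` are read, starting in `q` at time `i` -/
def Diagram.run {V Q : Type} [DecidableEq V] (D : Diagram Q) (S : Finset V) :
    List V → ℕ → Q → Q
  | [], _, q => q
  | v :: l, i, q => D.run S l (i + 1) (D.step i q (decide (v ∈ S)))

/-- the diagram decides `f` if it reads the vertices in the order of the list `l` -/
def Diagram.Decides {V Q : Type} [DecidableEq V] (D : Diagram Q) (l : List V)
    (f : Finset V → Prop) : Prop :=
  ∀ S, f S ↔ D.run S l 0 D.start ∈ D.acc

section

variable {V Q : Type} [DecidableEq V]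

theorem run_append (D : Diagram Q) (S : Finset V) (l l' : List V) (i : ℕ) (q : Q) :
    D.run S (l ++ l') i q = D.run S l' (i + l.length) (D.run S l i q) := by
  induction l generalizing i q with
  | nil => simp [Diagram.run]
  | cons v l ih =>
    simp only [List.cons_append, Diagram.run, ih, List.length_cons]
    congr 1
    ring

theorem run_congr (D : Diagram Q) {S S' : Finset V} (l : List V) (h : ∀ v ∈ l, v ∈ S ↔ v ∈ S')
    (i : ℕ) (q : Q) : D.run S l i q = D.run S' l i q := by
  induction l generalizing i q with
  | nil => rfl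
  | cons v l ih =>
    simp only [Diagram.run]
    rw [ih (fun w hw => h w (List.mem_cons_of_mem _ hw)), decide_eq_decide.2 (h v List.mem_cons_self)]

/-- the cut bound -/
theorem cut_bound [Fintype Q] {D : Diagram Q} {l l' : List V} {f : Finset V → Prop}
    (hD : D.Decides (l ++ l') f) {I : Type} [Fintype I] [DecidableEq I]
    (φ : Finset I → Finset V) (ψ : I → Finset V) (hφ : ∀ a, ∀ v ∈ φ a, v ∉ l')
    (hψ : ∀ i, ∀ v ∈ ψ i, v ∉ l) (hf : ∀ a i, f (φ a ∪ ψ i) ↔ i ∈ a) :
    2 ^ Fintype.card I ≤ Fintype.card Q := by
  classical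
  have key : ∀ a i, D.run (φ a ∪ ψ i) (l ++ l') 0 D.start =
      D.run (ψ i) l' (0 + l.length) (D.run (φ a) l 0 D.start) := by
    intro a i
    rw [run_append, run_congr D (S := φ a ∪ ψ i) (S' := φ a) l ?_,
      run_congr D (S := φ a ∪ ψ i) (S' := ψ i) l' ?_]
    · intro v hv
      rw [mem_union]
      exact or_iff_right fun h => hφ a v h hv
    · intro v hv
      rw [mem_union]
      exact or_iff_left fun h => hψ i v h hv
  have hinj : Function.Injective (fun a : Finset I => D.run (φ a) l 0 D.start) := by
    intro a b hab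
    ext i
    rw [← hf a i, ← hf b i, hD, hD, key, key]
    simp only at hab
    rw [hab]
  have := Fintype.card_le_of_injective _ hinj
  rwa [Fintype.card_finset] at this

end

variable (M : ℕ)

/-- the vertices: selectors `inl (r, c)` and data vertices `inr (p, b)` -/
abbrev Vx : Type := (ZMod M × Bool) ⊕ (ZMod M × Bool)

/-- the address vertices of the function `(r, c)` -/
def addr (rc : ZMod M × Bool) (p : ZMod M) : Vx M :=
  if rc.2 then Sum.inr (p + rc.1, true) else Sum.inr (p, false)

/-- the data vertices of the function `(r, c)` -/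
def dat (rc : ZMod M × Bool) (p : ZMod M) : Vx M :=
  if rc.2 then Sum.inr (p, false) else Sum.inr (p + rc.1, true)

/-- the function -/
def FA : Finset (Vx M) → Prop :=
  mux (Sum.inl : ZMod M × Bool → Vx M) fun rc => mux (addr M rc) fun p S => dat M rc p ∈ S

variable [NeZero M]

theorem FA_rep : Rep (FA M) (1 + 2 * M * (1 + M)) ((2 * M) ^ 2 + 2 * M * (M ^ 2 + M)) := by
  have h1 : ∀ rc : ZMod M × Bool, Rep (mux (addr M rc) fun p S => dat M rc p ∈ S)
      (1 + M) (M ^ 2 + M) := by
    intro rc
    have := Rep.mux (addr M rc) (fun p S => dat M rc p ∈ S) (c := 1) (d := 1)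
      (fun p => Rep.var _)
    rwa [ZMod.card, mul_one] at this
  have h2 := Rep.mux (Sum.inl : ZMod M × Bool → Vx M)
    (fun rc => mux (addr M rc) fun p S => dat M rc p ∈ S) h1
  have h3 : Fintype.card (ZMod M × Bool) = 2 * M := by
    rw [Fintype.card_prod, ZMod.card, Fintype.card_bool, mul_comm]
  rw [h3] at h2
  exact h2

theorem addr_inj (rc : ZMod M × Bool) : Function.Injective (addr M rc) := by
  intro p q h
  unfold addr at h
  split_ifs at h
  · simpa using h
  · simpa using h

theorem addr_ne_dat (rc : ZMod M × Bool) (p q : ZMod M) : addr M rc p ≠ dat M rc q := by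
  unfold addr dat
  split_ifs <;> simp

theorem dat_inj (rc : ZMod M × Bool) : Function.Injective (dat M rc) := by
  intro p q h
  unfold dat at h
  split_ifs at h
  · simpa using h
  · simpa using h

/-- the value of the function at the special sets -/
theorem FA_val (rc : ZMod M × Bool) (a : Finset (ZMod M)) (p : ZMod M) :
    FA M (insert (Sum.inl rc) (insert (addr M rc p) (a.image (dat M rc)))) ↔ p ∈ a := by
  have hinl : ∀ rc' : ZMod M × Bool, (Sum.inl rc' : Vx M) ∈
      insert (Sum.inl rc) (insert (addr M rc p) (a.image (dat M rc))) ↔ rc' = rc := by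
    intro rc'
    rw [mem_insert, mem_insert, mem_image]
    constructor
    · rintro (h | h | ⟨q, -, h⟩)
      · simpa using h
      · unfold addr at h; split_ifs at h
      · unfold dat at h; split_ifs at h
    · rintro rfl
      exact Or.inl rfl
  have haddr : ∀ q : ZMod M, addr M rc q ∈
      insert (Sum.inl rc) (insert (addr M rc p) (a.image (dat M rc))) ↔ q = p := by
    intro q
    rw [mem_insert, mem_insert, mem_image]
    constructor
    · rintro (h | h | ⟨q', -, h⟩)
      · unfold addr at h; split_ifs at h
      · exact addr_inj M rc h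
      · exact absurd h.symm (addr_ne_dat M rc q q')
    · rintro rfl
      exact Or.inr (Or.inl rfl)
  have hdat : ∀ q : ZMod M, dat M rc q ∈
      insert (Sum.inl rc) (insert (addr M rc p) (a.image (dat M rc))) ↔ q ∈ a := by
    intro q
    rw [mem_insert, mem_insert, mem_image]
    constructor
    · rintro (h | h | ⟨q', hq', h⟩)
      · unfold dat at h; split_ifs at h
      · exact absurd h.symm (addr_ne_dat M rc p q)
      · rwa [← dat_inj M rc h]
    · intro h
      exact Or.inr (Or.inr ⟨q, h, rfl⟩)
  unfold FA mux
  constructor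
  · rintro (⟨i, j, hij, hi, hj⟩ | ⟨i, hi, h⟩)
    · rw [hinl] at hi hj
      exact absurd (hi.trans hj.symm) hij
    · rw [hinl] at hi
      subst hi
      rcases h with ⟨i', j', hij, hi, hj⟩ | ⟨q, hq, hd⟩
      · rw [haddr] at hi hj
        exact absurd (hi.trans hj.symm) hij
      · rw [haddr] at hq
        subst hq
        exact (hdat _).1 hd
  · intro h
    exact Or.inr ⟨rc, (hinl _).2 rfl, Or.inr ⟨p, (haddr _).2 rfl, (hdat _).2 h⟩⟩

/-- the data vertices `inr (p, b)` -/
def dataSet : Finset (Vx M) := univ.image Sum.inr

theorem card_dataSet : (dataSet M).card = 2 * M := by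
  unfold dataSet
  rw [card_image_of_injective _ Sum.inr_injective, card_univ, Fintype.card_prod, ZMod.card,
    Fintype.card_bool, mul_comm]

/-- some function has many pairs with the data vertex inside and the address vertex outside -/
theorem exists_rc (A : Finset (Vx M)) (hA : (A ∩ dataSet M).card = M) :
    ∃ rc : ZMod M × Bool,
      M ≤ 4 * (univ.filter fun p : ZMod M => dat M rc p ∈ A ∧ addr M rc p ∉ A).card := by
  classical
  set α := (univ.filter fun p : ZMod M => (Sum.inr (p, false) : Vx M) ∈ A).card with hα
  set β := (univ.filter fun p : ZMod M => (Sum.inr (p, true) : Vx M) ∈ A).card with hβ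
  have hαβ : α + β = M := by
    rw [← hA]
    have h1 : A ∩ dataSet M = (univ.filter fun p : ZMod M => (Sum.inr (p, false) : Vx M) ∈ A).image
        (fun p => Sum.inr (p, false)) ∪
        (univ.filter fun p : ZMod M => (Sum.inr (p, true) : Vx M) ∈ A).image
        (fun p => Sum.inr (p, true)) := by
      ext v
      simp only [mem_inter, mem_union, mem_image, mem_filter, mem_univ, true_and, dataSet]
      constructor
      · rintro ⟨hv, ⟨⟨p, b⟩, rfl⟩⟩
        cases b
        · exact Or.inl ⟨p, hv, rfl⟩
        · exact Or.inr ⟨p, hv, rfl⟩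
      · rintro (⟨p, hp, rfl⟩ | ⟨p, hp, rfl⟩)
        · exact ⟨hp, _, rfl⟩
        · exact ⟨hp, _, rfl⟩
    rw [h1, card_union_of_disjoint, card_image_of_injective, card_image_of_injective]
    · intro p q h; simpa using h
    · intro p q h; simpa using h
    · rw [disjoint_left]
      intro v hv hv'
      obtain ⟨p, -, rfl⟩ := mem_image.1 hv
      obtain ⟨q, -, h⟩ := mem_image.1 hv'
      simp at h
  by_contra hcon
  push Not at hcon
  -- the indicator sums
  let a : ZMod M → ℤ := fun p => if (Sum.inr (p, false) : Vx M) ∈ A then 1 else 0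
  let b : ZMod M → ℤ := fun p => if (Sum.inr (p, true) : Vx M) ∈ A then 1 else 0
  have ha : ∑ p, a p = α := by
    simp only [a, sum_boole, hα]
  have hb : ∑ p, b p = β := by
    simp only [b, sum_boole, hβ]
  have hcard : Fintype.card (ZMod M) = M := ZMod.card M
  have e1 : ∀ r : ZMod M, ((univ.filter fun p : ZMod M => dat M (r, true) p ∈ A ∧
      addr M (r, true) p ∉ A).card : ℤ) = ∑ p, a p * (1 - b (p + r)) := by
    intro r
    rw [card_filter]
    push_cast
    refine sum_congr rfl fun p _ => ?_
    simp only [a, b, dat, addr, if_true]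
    by_cases h1 : (Sum.inr (p, false) : Vx M) ∈ A <;>
      by_cases h2 : (Sum.inr (p + r, true) : Vx M) ∈ A <;> simp [h1, h2]
  have e2 : ∀ r : ZMod M, ((univ.filter fun p : ZMod M => dat M (r, false) p ∈ A ∧
      addr M (r, false) p ∉ A).card : ℤ) = ∑ p, (1 - a p) * b (p + r) := by
    intro r
    rw [card_filter]
    push_cast
    refine sum_congr rfl fun p _ => ?_
    simp only [a, b, dat, addr]
    by_cases h1 : (Sum.inr (p, false) : Vx M) ∈ A <;>
      by_cases h2 : (Sum.inr (p + r, true) : Vx M) ∈ A <;> simp [h1, h2]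
  have sh : ∀ p : ZMod M, ∑ r, b (p + r) = β := by
    intro p
    rw [← hb]
    exact Fintype.sum_equiv (Equiv.addLeft p) _ _ fun r => rfl
  have s1 : ∑ r : ZMod M, ∑ p, a p * (1 - b (p + r)) = α * (M - β) := by
    rw [sum_comm]
    have : ∀ p : ZMod M, ∑ r, a p * (1 - b (p + r)) = a p * (M - β) := by
      intro p
      rw [← mul_sum, sum_sub_distrib, sh p, sum_const, card_univ, hcard]
      simp
    rw [sum_congr rfl fun p _ => this p, ← sum_mul, ha]
  have s2 : ∑ r : ZMod M, ∑ p, (1 - a p) * b (p + r) = (M - α) * β := by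
    rw [sum_comm]
    have : ∀ p : ZMod M, ∑ r, (1 - a p) * b (p + r) = (1 - a p) * β := by
      intro p
      rw [← mul_sum, sh p]
    rw [sum_congr rfl fun p _ => this p, ← sum_mul, sum_sub_distrib, ha, sum_const, card_univ,
      hcard]
    simp
  have hM0 : (0 : ℤ) < M := by exact_mod_cast Nat.pos_of_ne_zero (NeZero.ne M)
  have u1 : 4 * ∑ r : ZMod M, ∑ p, a p * (1 - b (p + r)) < M * M := by
    rw [mul_sum]
    calc ∑ r : ZMod M, 4 * ∑ p, a p * (1 - b (p + r)) < ∑ _r : ZMod M, (M : ℤ) := by
          refine sum_lt_sum_of_nonempty ⟨0, mem_univ _⟩ fun r _ => ?_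
          rw [← e1 r]
          exact_mod_cast hcon (r, true)
      _ = M * M := by rw [sum_const, card_univ, hcard]; simp
  have u2 : 4 * ∑ r : ZMod M, ∑ p, (1 - a p) * b (p + r) < M * M := by
    rw [mul_sum]
    calc ∑ r : ZMod M, 4 * ∑ p, (1 - a p) * b (p + r) < ∑ _r : ZMod M, (M : ℤ) := by
          refine sum_lt_sum_of_nonempty ⟨0, mem_univ _⟩ fun r _ => ?_
          rw [← e2 r]
          exact_mod_cast hcon (r, false)
      _ = M * M := by rw [sum_const, card_univ, hcard]; simp
  rw [s1] at u1
  rw [s2] at u2
  have h3 : (α : ℤ) + β = M := by exact_mod_cast hαβ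
  rw [← h3] at u1 u2
  nlinarith [sq_nonneg ((α : ℤ) - β)]

/-- a prefix of the list with exactly `M` data vertices -/
theorem exists_prefix (l : List (Vx M)) (hl : ∀ v, v ∈ l) :
    ∃ t : ℕ, ((l.take t).toFinset ∩ dataSet M).card = M := by
  classical
  have hM0 : 0 < M := Nat.pos_of_ne_zero (NeZero.ne M)
  let c : ℕ → ℕ := fun t => ((l.take t).toFinset ∩ dataSet M).card
  have hend : M ≤ c l.length := by
    have h1 : (l.take l.length).toFinset = univ := by
      rw [List.take_length]
      ext v
      simp [hl v]
    simp only [c]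
    rw [h1, univ_inter, card_dataSet]
    omega
  have hex : ∃ t, M ≤ c t := ⟨_, hend⟩
  let t := Nat.find hex
  have ht : M ≤ c t := Nat.find_spec hex
  have ht0 : t ≠ 0 := by
    intro h0
    rw [h0] at ht
    simp [c] at ht
    omega
  obtain ⟨s, hs⟩ := Nat.exists_eq_succ_of_ne_zero ht0
  have hlt : c s < M := by
    by_contra hcon
    push Not at hcon
    have := Nat.find_min' hex hcon
    change t ≤ s at this
    omega
  refine ⟨t, le_antisymm ?_ ht⟩
  have hsub : (l.take t).toFinset ∩ dataSet M ⊆
      ((l.take s).toFinset ∩ dataSet M) ∪ (l[s]?.toList).toFinset := by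
    rw [hs, Nat.succ_eq_add_one, List.take_add_one, List.toFinset_append]
    intro v hv
    rw [mem_inter, mem_union] at hv
    rw [mem_union, mem_inter]
    rcases hv.1 with h | h
    · exact Or.inl ⟨h, hv.2⟩
    · exact Or.inr h
  have h1 : (l[s]?.toList).toFinset.card ≤ 1 := by
    refine (List.toFinset_card_le _).trans ?_
    cases l[s]? <;> simp
  have h2 := (card_le_card hsub).trans (card_union_le _ _)
  have h3 : c s + (l[s]?.toList).toFinset.card ≤ M := by omega
  exact h2.trans h3

/-- **every ordered decision diagram of the function is large** -/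
theorem FA_bound {Q : Type} [Fintype Q] (D : Diagram Q) (l : List (Vx M)) (hnd : l.Nodup)
    (hl : ∀ v, v ∈ l) (hD : D.Decides l (FA M)) : 2 ^ M ≤ Fintype.card Q ^ 4 := by
  classical
  obtain ⟨t, ht⟩ := exists_prefix M l hl
  set A := (l.take t).toFinset with hA
  obtain ⟨rc, hrc⟩ := exists_rc M A ht
  set P := univ.filter fun p : ZMod M => dat M rc p ∈ A ∧ addr M rc p ∉ A with hP
  have hsplit : l.take t ++ l.drop t = l := List.take_append_drop t l
  have hdisj : ∀ v ∈ l.take t, v ∉ l.drop t := by
    have h1 := hnd
    rw [← hsplit, List.nodup_append] at h1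
    intro v hv hv'
    exact h1.2.2 v hv v hv' rfl
  have hmemA : ∀ v, v ∈ A ↔ v ∈ l.take t := by
    intro v
    rw [hA, List.mem_toFinset]
  have hnA : ∀ v, v ∉ A → v ∈ l.drop t := by
    intro v hv
    rw [hmemA] at hv
    have h1 := hl v
    rw [← hsplit, List.mem_append] at h1
    exact h1.resolve_left hv
  let W : Finset (Vx M) := if (Sum.inl rc : Vx M) ∈ A then {Sum.inl rc} else ∅
  let W' : Finset (Vx M) := if (Sum.inl rc : Vx M) ∈ A then ∅ else {Sum.inl rc}
  have hb := cut_bound (D := D) (l := l.take t) (l' := l.drop t) (f := FA M) (by rwa [hsplit])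
    (I := P) (fun a => W ∪ (a.image fun i : P => dat M rc i)) (fun i => W' ∪ {addr M rc i})
    ?_ ?_ ?_
  · rw [Fintype.card_coe] at hb
    calc 2 ^ M ≤ 2 ^ (4 * P.card) := Nat.pow_le_pow_right (by norm_num) hrc
      _ = (2 ^ P.card) ^ 4 := by rw [← pow_mul, mul_comm]
      _ ≤ Fintype.card Q ^ 4 := Nat.pow_le_pow_left hb 4
  · intro a v hv hv'
    refine hdisj v ?_ hv'
    rw [← hmemA]
    rcases mem_union.1 hv with h | h
    · simp only [W] at h
      split_ifs at h with h1
      · rw [mem_singleton] at h
        rwa [h]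
      · simp at h
    · obtain ⟨i, -, rfl⟩ := mem_image.1 h
      exact (mem_filter.1 i.2).2.1
  · intro i v hv hv'
    rcases mem_union.1 hv with h | h
    · simp only [W'] at h
      split_ifs at h with h1
      · simp at h
      · rw [mem_singleton] at h
        subst h
        exact h1 ((hmemA _).2 hv')
    · rw [mem_singleton] at h
      subst h
      exact (mem_filter.1 i.2).2.2 ((hmemA _).2 hv')
  · intro a i
    have hset : (W ∪ (a.image fun i : P => dat M rc i)) ∪ (W' ∪ {addr M rc i}) =
        insert (Sum.inl rc) (insert (addr M rc i) ((a.image fun i : P => (i : ZMod M)).image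
          (dat M rc))) := by
      have hWW : W ∪ W' = {Sum.inl rc} := by
        simp only [W, W']
        split_ifs <;> simp
      rw [image_image]
      ext v
      have := congrArg (fun s => v ∈ s) hWW
      simp only [mem_union, mem_singleton, eq_iff_iff] at this
      simp only [mem_union, mem_insert, mem_singleton]
      rw [← this]
      simp only [Function.comp_def]
      tauto
    rw [hset, FA_val]
    simp

end Pool.Agent.L5helper18.DD
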