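import Mathlib

/-!
# Ranks of communication matrices of conjunctions and negations
-/

set_option autoImplicit false

open Finset

namespace Pool.Agent.L5helper18.DD

open Classical in
/-- the 0-1-matrix of the relation `m` over the field `K` -/
noncomputable def mat (K : Type) [Field K] {α β : Type} (m : α → β → Prop) : Matrix α β K :=
  Matrix.of fun a b => if m a b then (1 : K) else 0

/-- the rank over the field `K` of the 0-1-matrix of the relation `m` -/
noncomputable def rk (K : Type) [Field K] {α β : Type} [Fintype β] (m : α → β → Prop) : ℕ :=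
  (mat K m).rank

section

variable (K : Type) [Field K]

theorem mat_one {α β : Type} {m : α → β → Prop} {a : α} {b : β} (h : m a b) :
    mat K m a b = 1 := by
  simp [mat, h]

theorem mat_zero {α β : Type} {m : α → β → Prop} {a : α} {b : β} (h : ¬ m a b) :
    mat K m a b = 0 := by
  simp [mat, h]

theorem rk_sub {α β α' β' : Type} [Fintype α] [Fintype β] [Fintype α'] [Fintype β']
    {m : α → β → Prop} {m' : α' → β' → Prop} (φ : α' → α) (ψ : β' → β)
    (h : ∀ a b, m' a b ↔ m (φ a) (ψ b)) : rk K m' ≤ rk K m := by
  classical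
  unfold rk
  have : mat K m' = (mat K m).submatrix φ ψ := by
    ext a b
    simp [mat, h]
  rw [this]
  exact Matrix.rank_submatrix_le _ _ _

theorem rk_congr {α β : Type} [Fintype β] {m m' : α → β → Prop}
    (h : ∀ a b, m a b ↔ m' a b) : rk K m = rk K m' := by
  have : m = m' := by
    ext a b
    exact h a b
  rw [this]

theorem rk_prod {α β α' β' : Type} [Fintype α] [Fintype β] [Fintype α'] [Fintype β']
    (m : α → β → Prop) (m' : α' → β' → Prop) :
    rk K m * rk K m' ≤ rk K (fun (a : α × α') (b : β × β') => m a.1 b.1 ∧ m' a.2 b.2) := by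
  classical
  let A : Matrix α β K := mat K m
  let B : Matrix α' β' K := mat K m'
  let C : Matrix (α × α') (β × β') K := mat K (fun a b => m a.1 b.1 ∧ m' a.2 b.2)
  have hC : ∀ a a' b b', C (a, a') (b, b') = A a b * B a' b' := by
    intro a a' b b'
    simp only [C, A, B, mat, Matrix.of_apply]
    by_cases h1 : m a b <;> by_cases h2 : m' a' b' <;> simp [h1, h2]
  have rA : Module.finrank K (Submodule.span K (Set.range A.row)) = A.rank :=
    (Matrix.rank_eq_finrank_span_row A).symm
  have rB : Module.finrank K (Submodule.span K (Set.range B.row)) = B.rank :=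
    (Matrix.rank_eq_finrank_span_row B).symm
  have rC : Module.finrank K (Submodule.span K (Set.range C.row)) = C.rank :=
    (Matrix.rank_eq_finrank_span_row C).symm
  obtain ⟨p, hp, u, hu, hui⟩ : ∃ p, p = A.rank ∧ ∃ u : Fin p → (β → K),
      (∀ i, u i ∈ Set.range A.row) ∧ LinearIndependent K u := by
    obtain ⟨u, hu, -, hui⟩ := Submodule.exists_fun_fin_finrank_span_eq K (Set.range A.row)
    exact ⟨_, rA, u, hu, hui⟩
  obtain ⟨q, hq, w, hw, hwi⟩ : ∃ q, q = B.rank ∧ ∃ w : Fin q → (β' → K),
      (∀ i, w i ∈ Set.range B.row) ∧ LinearIndependent K w := by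
    obtain ⟨w, hw, -, hwi⟩ := Submodule.exists_fun_fin_finrank_span_eq K (Set.range B.row)
    exact ⟨_, rB, w, hw, hwi⟩
  show A.rank * B.rank ≤ C.rank
  rw [← hp, ← hq, ← rC]
  let z : Fin p × Fin q → (β × β' → K) := fun ij bb => u ij.1 bb.1 * w ij.2 bb.2
  have hz : ∀ ij, z ij ∈ Set.range C.row := by
    rintro ⟨i, j⟩
    obtain ⟨a, ha⟩ := hu i
    obtain ⟨a', ha'⟩ := hw j
    refine ⟨(a, a'), ?_⟩
    ext ⟨b, b'⟩
    have h1 : u i b = A a b := (congrFun ha b).symm
    have h2 : w j b' = B a' b' := (congrFun ha' b').symm
    simp only [z, h1, h2]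
    exact hC a a' b b'
  have hzi : LinearIndependent K z := by
    rw [Fintype.linearIndependent_iff]
    intro g hg
    have h1 : ∀ b', ∀ i, ∑ j, g (i, j) * w j b' = 0 := by
      intro b'
      refine Fintype.linearIndependent_iff.1 hui (fun i => ∑ j, g (i, j) * w j b') ?_
      ext b
      have h2 := congrFun hg (b, b')
      simp only [Finset.sum_apply, Pi.smul_apply, smul_eq_mul, z, Pi.zero_apply] at h2 ⊢
      rw [Fintype.sum_prod_type] at h2
      rw [← h2]
      refine Finset.sum_congr rfl fun i _ => ?_
      rw [Finset.sum_mul]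
      refine Finset.sum_congr rfl fun j _ => ?_
      ring
    rintro ⟨i, j⟩
    refine Fintype.linearIndependent_iff.1 hwi (fun j => g (i, j)) ?_ j
    ext b'
    simp only [Finset.sum_apply, Pi.smul_apply, smul_eq_mul, Pi.zero_apply]
    exact h1 b' i
  have hfin := finrank_span_eq_card hzi
  rw [Fintype.card_prod, Fintype.card_fin, Fintype.card_fin] at hfin
  rw [← hfin]
  exact Submodule.finrank_mono (Submodule.span_mono (by rintro _ ⟨ij, rfl⟩; exact hz ij))

theorem rk_not {α β : Type} [Fintype α] [Fintype β] (m : α → β → Prop) :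
    rk K m ≤ rk K (fun a b => ¬ m a b) + 1 := by
  classical
  let A : Matrix α β K := mat K m
  let B : Matrix α β K := mat K (fun a b => ¬ m a b)
  have rA : Module.finrank K (Submodule.span K (Set.range A.row)) = A.rank :=
    (Matrix.rank_eq_finrank_span_row A).symm
  have rB : Module.finrank K (Submodule.span K (Set.range B.row)) = B.rank :=
    (Matrix.rank_eq_finrank_span_row B).symm
  show A.rank ≤ B.rank + 1
  rw [← rA, ← rB]
  have hle : Submodule.span K (Set.range A.row) ≤
      Submodule.span K (Set.range B.row) ⊔ Submodule.span K {(fun _ => 1 : β → K)} := by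
    rw [Submodule.span_le]
    rintro _ ⟨a, rfl⟩
    have h : A.row a = (fun _ => 1 : β → K) - B.row a := by
      ext b
      simp only [A, B, Matrix.row, mat, Matrix.of_apply, Pi.sub_apply]
      by_cases h : m a b <;> simp [h]
    rw [h]
    exact Submodule.sub_mem _ (Submodule.mem_sup_right (Submodule.mem_span_singleton_self _))
      (Submodule.mem_sup_left (Submodule.subset_span ⟨a, rfl⟩))
  calc _ ≤ _ := Submodule.finrank_mono hle
    _ ≤ _ := Submodule.finrank_add_le_finrank_add_finrank _ _
    _ ≤ _ := by
      gcongr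
      refine (finrank_span_le_card _).trans ?_
      simp

/-- both relations hold -/
def andM {α β : Type} (m : Bool → α → β → Prop) (c : Bool → α) (d : Bool → β) : Prop :=
  ∀ i, m i (c i) (d i)

theorem rk_andM {α β : Type} [Fintype α] [Fintype β] (m : Bool → α → β → Prop) :
    rk K (m false) * rk K (m true) ≤ rk K (andM m) := by
  classical
  refine (rk_prod K (m false) (m true)).trans (rk_sub K (fun a i => if i then a.2 else a.1)
    (fun b i => if i then b.2 else b.1) ?_)
  intro a b
  unfold andM
  constructor
  · rintro ⟨h1, h2⟩ i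
    cases i
    · simpa using h1
    · simpa using h2
  · intro h
    exact ⟨by simpa using h false, by simpa using h true⟩

theorem andM_one {α β : Type} (m : Bool → α → β → Prop) (i : Bool)
    {a₀ : α} {b₀ : β} (h₀ : m (!i) a₀ b₀) (a : α) (b : β) :
    andM m (fun k => if k = i then a else a₀) (fun k => if k = i then b else b₀) ↔ m i a b := by
  unfold andM
  constructor
  · intro h
    simpa using h i
  · intro h k
    by_cases hk : k = i
    · subst hk
      simpa using h
    · have : k = !i := by
        cases k <;> cases i <;> simp_all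
      subst this
      simp only [if_neg hk]
      exact h₀

theorem rk_andM_one {α β : Type} [Fintype α] [Fintype β] (m : Bool → α → β → Prop) (i : Bool)
    {a₀ : α} {b₀ : β} (h₀ : m (!i) a₀ b₀) : rk K (m i) ≤ rk K (andM m) := by
  classical
  exact rk_sub K (fun a k => if k = i then a else a₀) (fun b k => if k = i then b else b₀)
    fun a b => (andM_one m i h₀ a b).symm

theorem rk_not_andM_one {α β : Type} [Fintype α] [Fintype β] (m : Bool → α → β → Prop) (i : Bool)
    {a₀ : α} {b₀ : β} (h₀ : m (!i) a₀ b₀) :
    rk K (fun a b => ¬ m i a b) ≤ rk K (fun c d => ¬ andM m c d) := by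
  classical
  exact rk_sub K (fun a k => if k = i then a else a₀) (fun b k => if k = i then b else b₀)
    fun a b => (not_congr (andM_one m i h₀ a b)).symm

theorem rk_or : 2 ≤ rk K (fun (a b : Bool) => a = true ∨ b = true) := by
  classical
  have h1 := rk_sub K (m := fun (a b : Bool) => a = true ∨ b = true)
    (m' := fun (a b : Fin 2) => a = 1 ∨ b = 1) (fun a => decide (a = 1)) (fun b => decide (b = 1))
    (fun a b => by simp)
  refine le_trans ?_ h1
  have h2 : rk K (fun (a b : Fin 2) => a = 1 ∨ b = 1) = (!![0, 1; 1, 1] : Matrix _ _ K).rank := by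
    unfold rk
    congr 1
    ext a b
    fin_cases a <;> fin_cases b <;> simp [mat]
  rw [h2, Matrix.rank_of_det_ne_zero]
  · simp
  · rw [Matrix.det_fin_two]
    simp

end

end Pool.Agent.L5helper18.DD
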