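import Mathlib

/-!
# Monotone functions with few clauses and few terms; the unary multiplexer
-/

set_option autoImplicit false
set_option linter.unusedSectionVars false

open Finset

namespace Pool.Agent.L5helper18.DD

variable {V : Type} [DecidableEq V]

/-- `f` has a monotone conjunctive form with at most `c` clauses and a monotone disjunctive form with
at most `d` terms -/
def Rep (f : Finset V → Prop) (c d : ℕ) : Prop :=
  ∃ H D : Finset (Finset V), H.card ≤ c ∧ D.card ≤ d ∧
    (∀ S, f S ↔ ∀ E ∈ H, ∃ v ∈ E, v ∈ S) ∧ (∀ S, f S ↔ ∃ T ∈ D, T ⊆ S)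

theorem Rep.mono {f : Finset V → Prop} {c d c' d' : ℕ} (h : Rep f c d) (hc : c ≤ c')
    (hd : d ≤ d') : Rep f c' d' := by
  obtain ⟨H, D, h1, h2, h3, h4⟩ := h
  exact ⟨H, D, h1.trans hc, h2.trans hd, h3, h4⟩

theorem Rep.var (v : V) : Rep (fun S => v ∈ S) 1 1 :=
  ⟨{{v}}, {{v}}, by simp, by simp, fun S => by simp, fun S => by simp⟩

theorem Rep.congr {f g : Finset V → Prop} {c d : ℕ} (h : Rep f c d) (hfg : ∀ S, g S ↔ f S) :
    Rep g c d := by
  obtain ⟨H, D, h1, h2, h3, h4⟩ := h
  exact ⟨H, D, h1, h2, fun S => (hfg S).trans (h3 S), fun S => (hfg S).trans (h4 S)⟩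

theorem Rep.and {f g : Finset V → Prop} {c d c' d' : ℕ} (hf : Rep f c d) (hg : Rep g c' d') :
    Rep (fun S => f S ∧ g S) (c + c') (d * d') := by
  obtain ⟨H, D, h1, h2, h3, h4⟩ := hf
  obtain ⟨H', D', h1', h2', h3', h4'⟩ := hg
  refine ⟨H ∪ H', (D ×ˢ D').image (fun p => p.1 ∪ p.2), ?_, ?_, fun S => ?_, fun S => ?_⟩
  · exact (card_union_le _ _).trans (add_le_add h1 h1')
  · refine card_image_le.trans ?_
    rw [card_product]
    exact Nat.mul_le_mul h2 h2'
  · show f S ∧ g S ↔ _
    rw [h3, h3']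
    constructor
    · rintro ⟨a, b⟩ E hE
      rcases mem_union.1 hE with h | h
      · exact a E h
      · exact b E h
    · intro h
      exact ⟨fun E hE => h E (mem_union_left _ hE), fun E hE => h E (mem_union_right _ hE)⟩
  · show f S ∧ g S ↔ _
    rw [h4, h4']
    constructor
    · rintro ⟨⟨T, hT, hS⟩, T', hT', hS'⟩
      exact ⟨T ∪ T', mem_image.2 ⟨(T, T'), mem_product.2 ⟨hT, hT'⟩, rfl⟩, union_subset hS hS'⟩
    · rintro ⟨U, hU, hS⟩
      obtain ⟨⟨T, T'⟩, hp, rfl⟩ := mem_image.1 hU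
      obtain ⟨hT, hT'⟩ := mem_product.1 hp
      exact ⟨⟨T, hT, subset_union_left.trans hS⟩, T', hT', subset_union_right.trans hS⟩

theorem Rep.or {f g : Finset V → Prop} {c d c' d' : ℕ} (hf : Rep f c d) (hg : Rep g c' d') :
    Rep (fun S => f S ∨ g S) (c * c') (d + d') := by
  obtain ⟨H, D, h1, h2, h3, h4⟩ := hf
  obtain ⟨H', D', h1', h2', h3', h4'⟩ := hg
  refine ⟨(H ×ˢ H').image (fun p => p.1 ∪ p.2), D ∪ D', ?_, ?_, fun S => ?_, fun S => ?_⟩
  · refine card_image_le.trans ?_
    rw [card_product]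
    exact Nat.mul_le_mul h1 h1'
  · exact (card_union_le _ _).trans (add_le_add h2 h2')
  · show f S ∨ g S ↔ _
    rw [h3, h3']
    constructor
    · rintro h E hE
      obtain ⟨⟨T, T'⟩, hp, rfl⟩ := mem_image.1 hE
      obtain ⟨hT, hT'⟩ := mem_product.1 hp
      rcases h with h | h
      · obtain ⟨v, hv, hS⟩ := h T hT
        exact ⟨v, mem_union_left _ hv, hS⟩
      · obtain ⟨v, hv, hS⟩ := h T' hT'
        exact ⟨v, mem_union_right _ hv, hS⟩
    · intro h
      by_contra hcon
      push Not at hcon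
      obtain ⟨⟨T, hT, h5⟩, T', hT', h6⟩ := hcon
      obtain ⟨v, hv, hS⟩ := h (T ∪ T') (mem_image.2 ⟨(T, T'), mem_product.2 ⟨hT, hT'⟩, rfl⟩)
      rcases mem_union.1 hv with h7 | h7
      · exact h5 v h7 hS
      · exact h6 v h7 hS
  · show f S ∨ g S ↔ _
    rw [h4, h4']
    constructor
    · rintro (⟨T, hT, hS⟩ | ⟨T, hT, hS⟩)
      · exact ⟨T, mem_union_left _ hT, hS⟩
      · exact ⟨T, mem_union_right _ hT, hS⟩
    · rintro ⟨T, hT, hS⟩
      rcases mem_union.1 hT with h | h
      · exact Or.inl ⟨T, h, hS⟩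
      · exact Or.inr ⟨T, h, hS⟩

/-- the unary multiplexer: at least two of the vertices `u i` are present, or `u i` is present and
`h i` holds for some `i` -/
def mux {I : Type} (u : I → V) (h : I → Finset V → Prop) (S : Finset V) : Prop :=
  (∃ i j, i ≠ j ∧ u i ∈ S ∧ u j ∈ S) ∨ ∃ i, u i ∈ S ∧ h i S

theorem Rep.mux {I : Type} [Fintype I] [DecidableEq I] (u : I → V) (h : I → Finset V → Prop)
    {c d : ℕ} (hh : ∀ i, Rep (h i) c d) :
    Rep (DD.mux u h) (1 + Fintype.card I * c) (Fintype.card I ^ 2 + Fintype.card I * d) := by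
  choose H D h1 h2 h3 h4 using hh
  refine ⟨{univ.image u} ∪ univ.biUnion (fun i => (H i).image fun E => (univ.erase i).image u ∪ E),
    univ.offDiag.image (fun p : I × I => {u p.1, u p.2}) ∪
      univ.biUnion (fun i => (D i).image fun T => {u i} ∪ T), ?_, ?_, fun S => ?_, fun S => ?_⟩
  · refine (card_union_le _ _).trans (add_le_add (by simp) ?_)
    refine card_biUnion_le.trans ?_
    calc ∑ i : I, ((H i).image fun E => (univ.erase i).image u ∪ E).card
        ≤ ∑ _i : I, c := sum_le_sum fun i _ => card_image_le.trans (h1 i)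
      _ = Fintype.card I * c := by simp
  · refine (card_union_le _ _).trans (add_le_add ?_ ?_)
    · refine card_image_le.trans ?_
      rw [offDiag_card, card_univ, sq]
      exact Nat.sub_le _ _
    · refine card_biUnion_le.trans ?_
      calc ∑ i : I, ((D i).image fun T => {u i} ∪ T).card
          ≤ ∑ _i : I, d := sum_le_sum fun i _ => card_image_le.trans (h2 i)
        _ = Fintype.card I * d := by simp
  · constructor
    · rintro hS E hE
      rcases mem_union.1 hE with hE | hE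
      · rw [mem_singleton] at hE
        subst hE
        rcases hS with ⟨i, j, -, hi, -⟩ | ⟨i, hi, -⟩
        · exact ⟨u i, mem_image_of_mem _ (mem_univ _), hi⟩
        · exact ⟨u i, mem_image_of_mem _ (mem_univ _), hi⟩
      · obtain ⟨k, -, hk⟩ := mem_biUnion.1 hE
        obtain ⟨F, hF, rfl⟩ := mem_image.1 hk
        rcases hS with ⟨i, j, hij, hi, hj⟩ | ⟨i, hi, hhi⟩
        · by_cases hik : i = k
          · subst hik
            exact ⟨u j, mem_union_left _ (mem_image_of_mem _ (mem_erase.2 ⟨hij.symm, mem_univ _⟩)),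
              hj⟩
          · exact ⟨u i, mem_union_left _ (mem_image_of_mem _ (mem_erase.2 ⟨hik, mem_univ _⟩)), hi⟩
        · by_cases hik : i = k
          · subst hik
            obtain ⟨v, hv, hvS⟩ := (h3 i S).1 hhi F hF
            exact ⟨v, mem_union_right _ hv, hvS⟩
          · exact ⟨u i, mem_union_left _ (mem_image_of_mem _ (mem_erase.2 ⟨hik, mem_univ _⟩)), hi⟩
    · intro hE
      obtain ⟨v, hv, hvS⟩ := hE (univ.image u) (mem_union_left _ (mem_singleton_self _))
      obtain ⟨i, -, rfl⟩ := mem_image.1 hv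
      by_cases hex : ∃ j, i ≠ j ∧ u j ∈ S
      · obtain ⟨j, hij, hj⟩ := hex
        exact Or.inl ⟨i, j, hij, hvS, hj⟩
      · push Not at hex
        refine Or.inr ⟨i, hvS, (h3 i S).2 fun F hF => ?_⟩
        obtain ⟨w, hw, hwS⟩ := hE ((univ.erase i).image u ∪ F) (mem_union_right _
          (mem_biUnion.2 ⟨i, mem_univ _, mem_image_of_mem _ hF⟩))
        rcases mem_union.1 hw with hw | hw
        · obtain ⟨j, hj, rfl⟩ := mem_image.1 hw
          exact absurd hwS (hex j (mem_erase.1 hj).1.symm)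
        · exact ⟨w, hw, hwS⟩
  · constructor
    · rintro (⟨i, j, hij, hi, hj⟩ | ⟨i, hi, hhi⟩)
      · refine ⟨{u i, u j}, mem_union_left _ (mem_image.2 ⟨(i, j),
          mem_offDiag.2 ⟨mem_univ _, mem_univ _, hij⟩, rfl⟩), ?_⟩
        intro v hv
        rw [mem_insert, mem_singleton] at hv
        rcases hv with rfl | rfl
        · exact hi
        · exact hj
      · obtain ⟨T, hT, hTS⟩ := (h4 i S).1 hhi
        refine ⟨{u i} ∪ T, mem_union_right _ (mem_biUnion.2 ⟨i, mem_univ _,
          mem_image_of_mem _ hT⟩), union_subset (singleton_subset_iff.2 hi) hTS⟩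
    · rintro ⟨T, hT, hTS⟩
      rcases mem_union.1 hT with hT | hT
      · obtain ⟨⟨i, j⟩, hij, rfl⟩ := mem_image.1 hT
        exact Or.inl ⟨i, j, (mem_offDiag.1 hij).2.2, hTS (mem_insert_self _ _),
          hTS (mem_insert_of_mem (mem_singleton_self _))⟩
      · obtain ⟨i, -, hi⟩ := mem_biUnion.1 hT
        obtain ⟨T', hT', rfl⟩ := mem_image.1 hi
        exact Or.inr ⟨i, hTS (mem_union_left _ (mem_singleton_self _)),
          (h4 i S).2 ⟨T', hT', subset_union_right.trans hTS⟩⟩

/-- `S` meets all edges of `H` -/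
def IsTransversal (H : Finset (Finset V)) (S : Finset V) : Prop := ∀ E ∈ H, ∃ v ∈ E, v ∈ S

/-- the set of the minimal transversals of `H` -/
def Tr (H : Finset (Finset V)) : Set (Finset V) :=
  {S | IsTransversal H S ∧ ∀ S', S' ⊆ S → IsTransversal H S' → S' = S}

/-- a function with few clauses and few terms gives a hypergraph with few edges and few minimal
transversals -/
theorem Rep.hyper {f : Finset V → Prop} {c d : ℕ} (h : Rep f c d) :
    ∃ H : Finset (Finset V), H.card ≤ c ∧ (Tr H).encard ≤ d ∧ ∀ S, f S ↔ IsTransversal H S := by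
  obtain ⟨H, D, h1, h2, h3, h4⟩ := h
  refine ⟨H, h1, ?_, h3⟩
  have hsub : Tr H ⊆ (D : Set (Finset V)) := by
    rintro S ⟨hS, hmin⟩
    obtain ⟨T, hT, hTS⟩ := (h4 S).1 ((h3 S).2 hS)
    have : T = S := hmin T hTS ((h3 T).1 ((h4 T).2 ⟨T, hT, subset_rfl⟩))
    rw [← this]
    exact hT
  refine (Set.encard_le_encard hsub).trans ?_
  rw [Set.encard_coe_eq_coe_finsetCard]
  exact_mod_cast h2

end Pool.Agent.L5helper18.DD
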