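import Pool.Agent.L5helper18.DD.Rep
import Pool.Agent.L5helper18.DD.Rank

/-!
# The balanced tree of alternating disjunctions and conjunctions
-/

set_option autoImplicit false

open Finset

namespace Pool.Agent.L5helper18.DD

/-- the leaves of the tree with `2 j` levels -/
def Lf : ℕ → Type
  | 0 => Unit
  | j + 1 => Bool × Bool × Lf j

instance instFintypeLf : ∀ j, Fintype (Lf j)
  | 0 => inferInstanceAs (Fintype Unit)
  | j + 1 => by
    haveI := instFintypeLf j
    exact inferInstanceAs (Fintype (Bool × Bool × Lf j))

instance instDecidableEqLf : ∀ j, DecidableEq (Lf j)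
  | 0 => inferInstanceAs (DecidableEq Unit)
  | j + 1 => by
    haveI := instDecidableEqLf j
    exact inferInstanceAs (DecidableEq (Bool × Bool × Lf j))

theorem card_Lf : ∀ j, Fintype.card (Lf j) = 4 ^ j
  | 0 => rfl
  | j + 1 => by
    have h := card_Lf j
    have : Fintype.card (Lf (j + 1)) = Fintype.card (Bool × Bool × Lf j) :=
      Fintype.card_congr (Equiv.refl _)
    rw [this, Fintype.card_prod, Fintype.card_prod, Fintype.card_bool, h, pow_succ]
    ring

/-- the alternating tree: `∃ l, ∀ i` at every double level -/
def G : ∀ j, (Lf j → Prop) → Prop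
  | 0, y => y ()
  | j + 1, y => ∃ l, ∀ i, G j fun q => y (l, i, q)

/-- bound for the number of clauses -/
def Cn : ℕ → ℕ
  | 0 => 1
  | j + 1 => (2 * Cn j) ^ 2

/-- bound for the number of terms -/
def Dn : ℕ → ℕ
  | 0 => 2
  | j + 1 => 2 * Dn j ^ 2

theorem Cn_eq : ∀ j, 4 * Cn j = 4 ^ 2 ^ j
  | 0 => rfl
  | j + 1 => by
    have h := Cn_eq j
    rw [Cn, show (2 : ℕ) ^ (j + 1) = 2 ^ j * 2 from pow_succ _ _, pow_mul, ← h]
    ring

theorem Dn_eq : ∀ j, 2 * Dn j = 4 ^ 2 ^ j
  | 0 => rfl
  | j + 1 => by
    have h := Dn_eq j
    rw [Dn, show (2 : ℕ) ^ (j + 1) = 2 ^ j * 2 from pow_succ _ _, pow_mul, ← h]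
    ring

theorem Rep.G {V : Type} [DecidableEq V] : ∀ (j : ℕ) (y : Lf j → Finset V → Prop),
    (∀ q, Rep (y q) 1 2) → Rep (fun S => DD.G j fun q => y q S) (Cn j) (Dn j)
  | 0, y, h => h ()
  | j + 1, y, h => by
    have h1 : ∀ l i : Bool, Rep (fun S => DD.G j fun q => y (l, i, q) S) (Cn j) (Dn j) :=
      fun l i => Rep.G j (fun q => y (l, i, q)) fun q => h (l, i, q)
    have h2 : ∀ l : Bool, Rep (fun S => (DD.G j fun q => y (l, false, q) S) ∧
        DD.G j fun q => y (l, true, q) S) (2 * Cn j) (Dn j ^ 2) := by
      intro l
      refine ((h1 l false).and (h1 l true)).mono (le_of_eq (by ring)) (le_of_eq (by ring))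
    have h3 := (h2 false).or (h2 true)
    refine (h3.congr fun S => ?_).mono (le_of_eq (by rw [Cn]; ring)) (le_of_eq (by rw [Dn]; ring))
    show (∃ l, ∀ i, DD.G j fun q => y (l, i, q) S) ↔ _
    simp only [Bool.exists_bool, Bool.forall_bool]

theorem G_true : ∀ j, G j fun _ => True
  | 0 => trivial
  | j + 1 => ⟨false, fun _ => G_true j⟩

theorem G_false : ∀ j, ¬ G j fun _ => False
  | 0 => id
  | j + 1 => fun ⟨_, h⟩ => G_false j (h false)

/-- the owner of the value of a leaf -/
inductive Own where
  | split
  | alice
  | bob
  deriving DecidableEq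

/-- the value of a leaf -/
def val : Own → Bool → Bool → Prop
  | .split, x, y => x = true ∨ y = true
  | .alice, x, _ => x = true
  | .bob, _, y => y = true

theorem val_tt (o : Own) : val o true true := by cases o <;> simp [val]

theorem val_ff (o : Own) : ¬ val o false false := by cases o <;> simp [val]

/-- the communication relation of the tree -/
def mG (j : ℕ) (t : Lf j → Own) (a b : Lf j → Bool) : Prop := G j fun q => val (t q) (a q) (b q)

theorem mG_tt (j : ℕ) (t : Lf j → Own) : mG j t (fun _ => true) (fun _ => true) := by
  unfold mG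
  have : (fun q => val (t q) true true) = fun _ => True := by
    ext q
    exact iff_true_intro (val_tt _)
  rw [this]
  exact G_true j

theorem mG_ff (j : ℕ) (t : Lf j → Own) : ¬ mG j t (fun _ => false) (fun _ => false) := by
  unfold mG
  have : (fun q => val (t q) false false) = fun _ => False := by
    ext q
    exact iff_false_intro (val_ff _)
  rw [this]
  exact G_false j

/-- number of split leaves -/
def cnt : ∀ j, (Lf j → Own) → ℕ
  | 0, t => if t () = .split then 1 else 0
  | j + 1, t => (cnt j (fun q => t (false, false, q)) + cnt j (fun q => t (false, true, q))) +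
      (cnt j (fun q => t (true, false, q)) + cnt j (fun q => t (true, true, q)))

theorem cnt_eq : ∀ (j : ℕ) (t : Lf j → Own),
    cnt j t = (univ.filter fun q => t q = .split).card
  | 0, t => by
    have h : (univ.filter fun q : Lf 0 => t q = .split).card =
        ∑ q : Unit, if t q = Own.split then 1 else 0 := by
      rw [card_filter]
      rfl
    rw [h, cnt]
    exact (Fintype.sum_unique (ι := Unit) (fun q => if t q = Own.split then 1 else 0)).symm
  | j + 1, t => by
    have h : (univ.filter fun q : Lf (j + 1) => t q = .split).card =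
        ∑ q : Bool × Bool × Lf j, if t q = .split then 1 else 0 := by
      rw [card_filter]
      rfl
    rw [h, Fintype.sum_prod_type, Fintype.sum_bool, Fintype.sum_prod_type, Fintype.sum_prod_type,
      Fintype.sum_bool, Fintype.sum_bool, cnt, cnt_eq j, cnt_eq j, cnt_eq j, cnt_eq j,
      card_filter, card_filter, card_filter, card_filter]
    ring

/-- the combinatorial lower bound for the logarithm of the rank -/
def kap : ∀ j, (Lf j → Own) → ℕ
  | 0, _ => 0
  | j + 1, t =>
      max (kap j (fun q => t (false, false, q)) + kap j (fun q => t (false, true, q)))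
        (if 0 < cnt j (fun q => t (false, false, q)) ∧ 0 < cnt j (fun q => t (false, true, q))
          then 1 else 0) +
      max (kap j (fun q => t (true, false, q)) + kap j (fun q => t (true, true, q)))
        (if 0 < cnt j (fun q => t (true, false, q)) ∧ 0 < cnt j (fun q => t (true, true, q))
          then 1 else 0)

theorem kap_zero : ∀ (j : ℕ) (t : Lf j → Own), cnt j t = 0 → kap j t = 0
  | 0, _, _ => rfl
  | j + 1, t, h => by
    rw [cnt] at h
    have h1 : cnt j (fun q => t (false, false, q)) = 0 := by omega
    have h2 : cnt j (fun q => t (false, true, q)) = 0 := by omega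
    have h3 : cnt j (fun q => t (true, false, q)) = 0 := by omega
    have h4 : cnt j (fun q => t (true, true, q)) = 0 := by omega
    rw [kap, kap_zero j _ h1, kap_zero j _ h2, kap_zero j _ h3, kap_zero j _ h4, h1, h3]
    simp

theorem cnt_le_of_kap : ∀ (j : ℕ) (t : Lf j → Own), kap j t = 0 → cnt j t ≤ 2 ^ j
  | 0, t, _ => by
    rw [cnt]
    split_ifs <;> simp
  | j + 1, t, h => by
    rw [kap] at h
    have ih := cnt_le_of_kap j
    have key : ∀ l : Bool, max (kap j (fun q => t (l, false, q)) + kap j (fun q => t (l, true, q)))
        (if 0 < cnt j (fun q => t (l, false, q)) ∧ 0 < cnt j (fun q => t (l, true, q))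
          then 1 else 0) = 0 →
        cnt j (fun q => t (l, false, q)) + cnt j (fun q => t (l, true, q)) ≤ 2 ^ j := by
      intro l hl
      have h1 : kap j (fun q => t (l, false, q)) + kap j (fun q => t (l, true, q)) = 0 := by
        have := le_max_left (kap j (fun q => t (l, false, q)) + kap j (fun q => t (l, true, q)))
          (if 0 < cnt j (fun q => t (l, false, q)) ∧ 0 < cnt j (fun q => t (l, true, q))
          then 1 else 0)
        omega
      have h2 : ¬ (0 < cnt j (fun q => t (l, false, q)) ∧ 0 < cnt j (fun q => t (l, true, q))) := by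
        intro hc
        rw [if_pos hc] at hl
        have := le_max_right (kap j (fun q => t (l, false, q)) + kap j (fun q => t (l, true, q))) 1
        omega
      have i1 := ih (fun q => t (l, false, q)) (by omega)
      have i2 := ih (fun q => t (l, true, q)) (by omega)
      omega
    have k1 := key false (by omega)
    have k2 := key true (by omega)
    rw [cnt, pow_succ]
    omega

theorem cnt_le (h : ℕ) : ∀ (s : ℕ) (t : Lf (h + s) → Own),
    cnt (h + s) t ≤ kap (h + s) t * 4 ^ h + 2 ^ h * 4 ^ s
  | 0, t => by
    rcases Nat.eq_zero_or_pos (kap (h + 0) t) with h0 | h0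
    · have := cnt_le_of_kap (h + 0) t h0
      rw [h0]
      simpa using this
    · have h1 : cnt (h + 0) t ≤ 4 ^ h := by
        rw [cnt_eq]
        refine (card_le_univ _).trans ?_
        rw [card_Lf]
        simp
      calc cnt (h + 0) t ≤ 1 * 4 ^ h := by simpa using h1
        _ ≤ kap (h + 0) t * 4 ^ h := Nat.mul_le_mul_right _ h0
        _ ≤ _ := Nat.le_add_right _ _
  | s + 1, t => by
    have ih := cnt_le h s
    have i1 := ih fun q => t (false, false, q)
    have i2 := ih fun q => t (false, true, q)
    have i3 := ih fun q => t (true, false, q)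
    have i4 := ih fun q => t (true, true, q)
    have hk : kap (h + s) (fun q => t (false, false, q)) + kap (h + s) (fun q => t (false, true, q)) +
        (kap (h + s) (fun q => t (true, false, q)) + kap (h + s) (fun q => t (true, true, q))) ≤
        kap (h + (s + 1)) t := by
      show _ ≤ kap (h + s + 1) t
      rw [kap]
      exact add_le_add (le_max_left _ _) (le_max_left _ _)
    show cnt (h + s + 1) t ≤ _
    rw [cnt]
    calc _ ≤ (kap (h + s) (fun q => t (false, false, q)) + kap (h + s) (fun q => t (false, true, q)) +
        (kap (h + s) (fun q => t (true, false, q)) + kap (h + s) (fun q => t (true, true, q)))) *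
          4 ^ h + 4 * (2 ^ h * 4 ^ s) := by
          rw [add_mul, add_mul, add_mul]
          linarith
      _ ≤ kap (h + (s + 1)) t * 4 ^ h + 2 ^ h * 4 ^ (s + 1) := by
          refine add_le_add (Nat.mul_le_mul_right _ hk) (le_of_eq ?_)
          rw [pow_succ]
          ring

section

variable (K : Type) [Field K]

/-- the relation of one branch -/
def nG (j : ℕ) (t : Lf (j + 1) → Own) (l : Bool) : (Bool → Lf j → Bool) → (Bool → Lf j → Bool) →
    Prop :=
  andM fun i => mG j fun q => t (l, i, q)

theorem nG_tt (j : ℕ) (t : Lf (j + 1) → Own) (l : Bool) :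
    nG j t l (fun _ _ => true) (fun _ _ => true) := fun _ => mG_tt _ _

theorem nG_ff (j : ℕ) (t : Lf (j + 1) → Own) (l : Bool) :
    ¬ nG j t l (fun _ _ => false) (fun _ _ => false) := fun h => mG_ff _ _ (h false)

theorem not_mG_iff (j : ℕ) (t : Lf (j + 1) → Own) (c d : Bool → Bool → Lf j → Bool) :
    ¬ mG (j + 1) t (fun q => c q.1 q.2.1 q.2.2) (fun q => d q.1 q.2.1 q.2.2) ↔
      andM (fun l a b => ¬ nG j t l a b) c d := by
  show (¬ ∃ l, ∀ i, G j fun q => val (t (l, i, q)) (c l i q) (d l i q)) ↔
    ∀ l, ¬ ∀ i, G j fun q => val (t (l, i, q)) (c l i q) (d l i q)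
  push Not
  rfl

theorem rk_mG (j : ℕ) (t : Lf (j + 1) → Own) :
    rk K (fun c d => ¬ andM (fun l a b => ¬ nG j t l a b) c d) ≤ rk K (mG (j + 1) t) :=
  rk_sub K (fun c (q : Lf (j + 1)) => c q.1 q.2.1 q.2.2) (fun c (q : Lf (j + 1)) => c q.1 q.2.1 q.2.2)
    fun c d => by rw [← not_mG_iff, not_not]

theorem rk_not_mG (j : ℕ) (t : Lf (j + 1) → Own) :
    rk K (andM (fun l a b => ¬ nG j t l a b)) ≤ rk K (fun a b => ¬ mG (j + 1) t a b) :=
  rk_sub K (fun c (q : Lf (j + 1)) => c q.1 q.2.1 q.2.2) (fun c (q : Lf (j + 1)) => c q.1 q.2.1 q.2.2)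
    fun c d => (not_mG_iff j t c d).symm

/-- **the rank of the tree with many split leaves** -/
theorem rank_tree : ∀ (j : ℕ) (t : Lf j → Own), 0 < cnt j t →
    2 ^ kap j t + 1 ≤ rk K (mG j t) ∧
      (0 < kap j t → 2 ^ kap j t + 1 ≤ rk K (fun a b => ¬ mG j t a b))
  | 0, t, h => by
    refine ⟨?_, fun h => absurd h (by simp [kap])⟩
    rw [cnt] at h
    have ht : t () = .split := by
      by_contra hc
      rw [if_neg hc] at h
      exact absurd h (by simp)
    refine (rk_or K).trans (rk_sub K (fun x _ => x) (fun y _ => y) fun x y => ?_)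
    show _ ↔ val (t ()) x y
    rw [ht]
    rfl
  | j + 1, t, h => by
    have ih := rank_tree j
    -- one branch
    set κ : Bool → ℕ := fun l =>
      max (kap j (fun q => t (l, false, q)) + kap j (fun q => t (l, true, q)))
        (if 0 < cnt j (fun q => t (l, false, q)) ∧ 0 < cnt j (fun q => t (l, true, q))
          then 1 else 0) with hκ
    set P : Bool → ℕ := fun l => cnt j (fun q => t (l, false, q)) + cnt j (fun q => t (l, true, q))
      with hP
    have hkap : kap (j + 1) t = κ false + κ true := rfl
    have hcnt : cnt (j + 1) t = P false + P true := rfl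
    have branch : ∀ l, 0 < P l → 2 ^ κ l + 1 ≤ rk K (nG j t l) ∧
        (0 < κ l → 2 ^ κ l + 1 ≤ rk K (fun a b => ¬ nG j t l a b)) := by
      intro l hl
      by_cases h0 : 0 < cnt j (fun q => t (l, false, q))
      · by_cases h1 : 0 < cnt j (fun q => t (l, true, q))
        · -- both
          obtain ⟨a0, -⟩ := ih _ h0
          obtain ⟨a1, -⟩ := ih _ h1
          have hr := rk_andM K (fun i => mG j fun q => t (l, i, q))
          have hr2 := rk_not K (nG j t l)
          set x := kap j (fun q => t (l, false, q))
          set y := kap j (fun q => t (l, true, q))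
          have hprod : (2 ^ x + 1) * (2 ^ y + 1) ≤ rk K (nG j t l) :=
            (Nat.mul_le_mul a0 a1).trans hr
          have hκl : κ l = max (x + y) 1 := by
            simp only [hκ]
            rw [if_pos ⟨h0, h1⟩]
          have hx1 : 1 ≤ 2 ^ x := Nat.one_le_two_pow
          have hy1 : 1 ≤ 2 ^ y := Nat.one_le_two_pow
          have hmain : 2 ^ κ l + 2 ≤ (2 ^ x + 1) * (2 ^ y + 1) := by
            rcases Nat.eq_zero_or_pos (x + y) with hxy | hxy
            · have : κ l = 1 := by rw [hκl, hxy]; rfl
              have hx0 : x = 0 := by omega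
              have hy0 : y = 0 := by omega
              rw [this, hx0, hy0]
              norm_num
            · have : κ l = x + y := by rw [hκl]; exact max_eq_left hxy
              rw [this, pow_add]
              nlinarith
          exact ⟨by omega, fun _ => by omega⟩
        · -- only the first
          have h1' : cnt j (fun q => t (l, true, q)) = 0 := by omega
          have hκl : κ l = kap j (fun q => t (l, false, q)) := by
            simp only [hκ]
            rw [kap_zero j _ h1', if_neg (fun h => h1 h.2)]
            simp
          obtain ⟨a0, a1⟩ := ih _ h0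
          rw [hκl]
          refine ⟨a0.trans ?_, fun hpos => (a1 hpos).trans ?_⟩
          · exact rk_andM_one K (fun i => mG j fun q => t (l, i, q)) false (mG_tt _ _)
          · exact rk_not_andM_one K (fun i => mG j fun q => t (l, i, q)) false (mG_tt _ _)
      · have h0' : cnt j (fun q => t (l, false, q)) = 0 := by omega
        have h1 : 0 < cnt j (fun q => t (l, true, q)) := by
          simp only [hP] at hl
          omega
        have hκl : κ l = kap j (fun q => t (l, true, q)) := by
          simp only [hκ]
          rw [kap_zero j _ h0', if_neg (fun h => h0 h.1)]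
          simp
        obtain ⟨a0, a1⟩ := ih _ h1
        rw [hκl]
        refine ⟨a0.trans ?_, fun hpos => (a1 hpos).trans ?_⟩
        · exact rk_andM_one K (fun i => mG j fun q => t (l, i, q)) true (mG_tt _ _)
        · exact rk_not_andM_one K (fun i => mG j fun q => t (l, i, q)) true (mG_tt _ _)
    have hκP : ∀ l, P l = 0 → κ l = 0 := by
      intro l hl
      simp only [hP] at hl
      simp only [hκ]
      rw [kap_zero j _ (by omega), kap_zero j _ (by omega), if_neg (by omega)]
      simp
    -- one branch suffices
    have single : ∀ l, 0 < P l → κ (!l) = 0 →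
        2 ^ kap (j + 1) t + 1 ≤ rk K (mG (j + 1) t) ∧
        (0 < kap (j + 1) t → 2 ^ kap (j + 1) t + 1 ≤ rk K (fun a b => ¬ mG (j + 1) t a b)) := by
      intro l hl h0
      have hk : kap (j + 1) t = κ l := by
        rw [hkap]
        cases l
        · simp only [Bool.not_false] at h0
          omega
        · simp only [Bool.not_true] at h0
          omega
      obtain ⟨b0, b1⟩ := branch l hl
      rw [hk]
      refine ⟨b0.trans (le_trans ?_ (rk_mG K j t)), fun hpos => (b1 hpos).trans
        (le_trans ?_ (rk_not_mG K j t))⟩
      · have := rk_not_andM_one K (fun l a b => ¬ nG j t l a b) l (nG_ff j t (!l))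
        simpa only [not_not] using this
      · exact rk_andM_one K (fun l a b => ¬ nG j t l a b) l (nG_ff j t (!l))
    by_cases hf : κ false = 0
    · by_cases hPt : 0 < P true
      · exact single true hPt (by simpa using hf)
      · have hPf : 0 < P false := by
          rw [hcnt] at h
          omega
        exact single false hPf (by simpa using hκP true (by omega))
    · by_cases ht : κ true = 0
      · have hPf : 0 < P false := by
          by_contra hc
          exact hf (hκP false (by omega))
        exact single false hPf (by simpa using ht)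
      · have hPf : 0 < P false := by
          by_contra hc
          exact hf (hκP false (by omega))
        have hPt : 0 < P true := by
          by_contra hc
          exact ht (hκP true (by omega))
        obtain ⟨-, b0⟩ := branch false hPf
        obtain ⟨-, b1⟩ := branch true hPt
        have c0 := b0 (by omega)
        have c1 := b1 (by omega)
        have hr : (2 ^ κ false + 1) * (2 ^ κ true + 1) ≤
            rk K (andM (fun l a b => ¬ nG j t l a b)) :=
          (Nat.mul_le_mul c0 c1).trans (rk_andM K fun l a b => ¬ nG j t l a b)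
        have hr2 := rk_not K (andM (fun l a b => ¬ nG j t l a b))
        have hr3 := rk_mG K j t
        have hr4 := rk_not_mG K j t
        have hpow : 2 ^ kap (j + 1) t + 2 ≤ (2 ^ κ false + 1) * (2 ^ κ true + 1) := by
          rw [hkap, pow_add]
          have e1 : 1 ≤ 2 ^ κ false := Nat.one_le_two_pow
          have e2 : 1 ≤ 2 ^ κ true := Nat.one_le_two_pow
          have e3 : 2 ≤ 2 ^ κ false := by
            calc 2 = 2 ^ 1 := rfl
              _ ≤ 2 ^ κ false := Nat.pow_le_pow_right (by norm_num) (by omega)
          nlinarith
        exact ⟨by omega, fun _ => by omega⟩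

end

end Pool.Agent.L5helper18.DD
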