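import Pool.Agent.L5helper18.DD.Bal

/-!
# Structured representations of a function along a binary tree of the vertices
-/

set_option autoImplicit false

open Finset

namespace Pool.Agent.L5helper18.DD

/-- binary trees whose leaves are labelled by vertices -/
inductive VTree (V : Type) where
  | leaf (v : V)
  | node (l r : VTree V)

/-- the vertices of a tree -/
def VTree.vars {V : Type} [DecidableEq V] : VTree V → Finset V
  | .leaf v => {v}
  | .node l r => l.vars ∪ r.vars

/-- no vertex occurs twice -/
def VTree.Ok {V : Type} [DecidableEq V] : VTree V → Prop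
  | .leaf _ => True
  | .node l r => l.Ok ∧ r.Ok ∧ Disjoint l.vars r.vars

section

variable {V : Type} [Fintype V] [DecidableEq V] (K : Type) [Field K]

/-- the constant functions together with the functions of `W` -/
def addOne {V K : Type} [Field K] (W : Submodule K (Finset V → K)) : Submodule K (Finset V → K) :=
  W ⊔ Submodule.span K {fun _ => 1}

/-- `Structured K s τ W`: the space `W` of functions is computed along the tree `τ` by spaces of
dimension at most `s`, one for each subtree -/
inductive Structured (K : Type) [Field K] (s : ℕ) : VTree V → Submodule K (Finset V → K) → Prop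
  | leaf (v : V) (W : Submodule K (Finset V → K)) (hs : Module.finrank K W ≤ s)
      (h : ∀ g ∈ W, ∀ S, g S = g (S ∩ {v})) : Structured K s (.leaf v) W
  | node (l r : VTree V) (Wl Wr W : Submodule K (Finset V → K)) (hl : Structured K s l Wl)
      (hr : Structured K s r Wr) (hs : Module.finrank K W ≤ s)
      (h : W ≤ Submodule.span K {g | ∃ g₁ ∈ addOne Wl, ∃ g₂ ∈ addOne Wr, g = fun S => g₁ S * g₂ S}) :
      Structured K s (.node l r) W

/-- the functions which depend on the vertices of `B` only -/
def Dep (B : Finset V) : Submodule K (Finset V → K) where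
  carrier := {g | ∀ S, g S = g (S ∩ B)}
  add_mem' := by
    intro a b ha hb S
    simp only [Pi.add_apply]
    rw [ha S, hb S]
  zero_mem' := fun _ => rfl
  smul_mem' := by
    intro c a ha S
    simp only [Pi.smul_apply]
    rw [ha S]

variable {K}

theorem mem_Dep {B : Finset V} {g : Finset V → K} : g ∈ Dep K B ↔ ∀ S, g S = g (S ∩ B) := Iff.rfl

theorem Dep_mono {B C : Finset V} (h : B ⊆ C) : Dep K B ≤ Dep K C := by
  intro g hg S
  have h1 := mem_Dep.1 hg S
  have h2 := mem_Dep.1 hg (S ∩ C)
  rw [inter_assoc, inter_eq_right.2 h] at h2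
  rw [h1, h2]

theorem addOne_Dep {B : Finset V} {W : Submodule K (Finset V → K)} (h : W ≤ Dep K B) :
    addOne W ≤ Dep K B := by
  refine sup_le h ?_
  rw [Submodule.span_le, Set.singleton_subset_iff]
  intro S
  rfl

theorem mul_Dep {B : Finset V} {g h : Finset V → K} (hg : g ∈ Dep K B) (hh : h ∈ Dep K B) :
    (fun S => g S * h S) ∈ Dep K B := by
  intro S
  show g S * h S = g (S ∩ B) * h (S ∩ B)
  rw [← mem_Dep.1 hg S, ← mem_Dep.1 hh S]

theorem Structured.dep {s : ℕ} {τ : VTree V} {W : Submodule K (Finset V → K)}
    (h : Structured K s τ W) : W ≤ Dep K τ.vars := by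
  induction h with
  | leaf v W hs h => exact fun g hg => h g hg
  | node l r Wl Wr W hl hr hs h ihl ihr =>
    refine h.trans ?_
    rw [Submodule.span_le]
    rintro g ⟨g₁, h₁, g₂, h₂, rfl⟩
    exact mul_Dep (Dep_mono subset_union_left (addOne_Dep ihl h₁))
      (Dep_mono subset_union_right (addOne_Dep ihr h₂))

/-- sums of products of functions of `U` and functions of `D` -/
def prodSpan {V K : Type} [Field K] (U D : Submodule K (Finset V → K)) :
    Submodule K (Finset V → K) :=
  Submodule.span K {g | ∃ g₁ ∈ U, ∃ g₂ ∈ D, g = fun S => g₁ S * g₂ S}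

theorem prodSpan_comm (U D : Submodule K (Finset V → K)) : prodSpan U D = prodSpan D U := by
  unfold prodSpan
  congr 1
  ext g
  constructor
  · rintro ⟨a, ha, b, hb, rfl⟩
    exact ⟨b, hb, a, ha, by ext S; exact mul_comm _ _⟩
  · rintro ⟨a, ha, b, hb, rfl⟩
    exact ⟨b, hb, a, ha, by ext S; exact mul_comm _ _⟩

/-- going down to the left subtree -/
theorem step_left {W Wl Wr : Submodule K (Finset V → K)} {B C : Finset V}
    (hW : W ≤ prodSpan (addOne Wl) (addOne Wr)) (hWr : Wr ≤ Dep K C) :
    prodSpan (addOne W) (Dep K B) ≤ prodSpan (addOne Wl) (Dep K (C ∪ B)) := by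
  have h1 : addOne W ≤ prodSpan (addOne Wl) (addOne Wr) := by
    refine sup_le hW ?_
    rw [Submodule.span_le, Set.singleton_subset_iff]
    refine Submodule.subset_span ⟨fun _ => 1, Submodule.mem_sup_right
      (Submodule.mem_span_singleton_self _), fun _ => 1, Submodule.mem_sup_right
      (Submodule.mem_span_singleton_self _), ?_⟩
    ext S
    simp
  unfold prodSpan
  rw [Submodule.span_le]
  rintro g ⟨a, ha, b, hb, rfl⟩
  have ha' := h1 ha
  unfold prodSpan at ha'
  refine Submodule.span_induction (p := fun x _ => (fun S => x S * b S) ∈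
    (Submodule.span K {g | ∃ g₁ ∈ addOne Wl, ∃ g₂ ∈ Dep K (C ∪ B), g = fun S => g₁ S * g₂ S} :
      Submodule K (Finset V → K))) ?_ ?_ ?_ ?_ ha'
  · rintro x ⟨g₁, h₁, g₂, h₂, rfl⟩
    refine Submodule.subset_span ⟨g₁, h₁, fun S => g₂ S * b S, ?_, ?_⟩
    · exact mul_Dep (Dep_mono subset_union_left (addOne_Dep hWr h₂)) (Dep_mono subset_union_right hb)
    · ext S
      simp only
      ring
  · have : (fun S => (0 : Finset V → K) S * b S) = 0 := by
      ext S
      simp
    rw [this]
    exact Submodule.zero_mem _
  · intro x y _ _ hx hy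
    have : (fun S => (x + y) S * b S) = (fun S => x S * b S) + fun S => y S * b S := by
      ext S
      simp [add_mul]
    rw [this]
    exact Submodule.add_mem _ hx hy
  · intro c x _ hx
    have : (fun S => (c • x) S * b S) = c • fun S => x S * b S := by
      ext S
      simp [mul_assoc]
    rw [this]
    exact Submodule.smul_mem _ _ hx

theorem finrank_addOne (W : Submodule K (Finset V → K)) :
    Module.finrank K (addOne W) ≤ Module.finrank K W + 1 := by
  refine (Submodule.finrank_add_le_finrank_add_finrank _ _).trans ?_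
  gcongr
  refine (finrank_span_le_card _).trans ?_
  simp

/-- the rank is at most the dimension of the space of one side -/
theorem rk_le_of_prodSpan {f : Finset V → Prop} {F : Finset V → K}
    (hF : ∀ S, (f S → F S = 1) ∧ (¬ f S → F S = 0)) {A : Finset V}
    {U : Submodule K (Finset V → K)} (hU : U ≤ Dep K A) (h : F ∈ prodSpan U (Dep K Aᶜ)) :
    rk K (cm f A) ≤ Module.finrank K U := by
  classical
  have hmat : ∀ S S', mat K (cm f A) S S' = F (S.1 ∪ S'.1) := by
    intro S S'
    by_cases h1 : f (S.1 ∪ S'.1)
    · rw [mat_one K (show cm f A S S' from h1), (hF _).1 h1]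
    · rw [mat_zero K (show ¬ cm f A S S' from h1), (hF _).2 h1]
  let ρ : (Finset V → K) →ₗ[K] ({S : Finset V // S ⊆ A} → K) :=
    { toFun := fun g S => g S.1
      map_add' := fun _ _ => rfl
      map_smul' := fun _ _ => rfl }
  have key : ∀ (S' : {S : Finset V // S ⊆ Aᶜ}), ∀ g ∈ prodSpan U (Dep K Aᶜ),
      (fun S : {S : Finset V // S ⊆ A} => g (S.1 ∪ S'.1)) ∈ U.map ρ := by
    intro S' g hg
    unfold prodSpan at hg
    refine Submodule.span_induction (p := fun x _ =>
      (fun S : {S : Finset V // S ⊆ A} => x (S.1 ∪ S'.1)) ∈ U.map ρ) ?_ ?_ ?_ ?_ hg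
    · rintro x ⟨a, ha, b, hb, rfl⟩
      have h1 : (fun S : {S : Finset V // S ⊆ A} => a (S.1 ∪ S'.1) * b (S.1 ∪ S'.1)) =
          b S'.1 • ρ a := by
        ext S
        have e1 : a (S.1 ∪ S'.1) = a S.1 := by
          rw [mem_Dep.1 (hU ha) (S.1 ∪ S'.1), mem_Dep.1 (hU ha) S.1]
          congr 1
          have : S'.1 ∩ A = ∅ := by
            rw [← disjoint_iff_inter_eq_empty]
            exact disjoint_left.2 fun v hv hv' => (mem_compl.1 (S'.2 hv)) hv'
          rw [union_inter_distrib_right, this, union_empty]
        have e2 : b (S.1 ∪ S'.1) = b S'.1 := by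
          rw [mem_Dep.1 hb (S.1 ∪ S'.1), mem_Dep.1 hb S'.1]
          congr 1
          have : S.1 ∩ Aᶜ = ∅ := by
            rw [← disjoint_iff_inter_eq_empty]
            exact disjoint_left.2 fun v hv hv' => (mem_compl.1 hv') (S.2 hv)
          rw [union_inter_distrib_right, this, empty_union]
        rw [e1, e2]
        show a S.1 * b S'.1 = b S'.1 * a S.1
        exact mul_comm _ _
      rw [h1]
      exact Submodule.smul_mem _ _ (Submodule.mem_map_of_mem ha)
    · exact Submodule.zero_mem _
    · intro x y _ _ hx hy
      exact Submodule.add_mem _ hx hy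
    · intro c x _ hx
      exact Submodule.smul_mem _ c hx
  unfold rk
  rw [Matrix.rank_eq_finrank_span_cols]
  calc Module.finrank K (Submodule.span K (Set.range (mat K (cm f A)).col))
      ≤ Module.finrank K (U.map ρ) := by
        refine Submodule.finrank_mono ?_
        rw [Submodule.span_le]
        rintro _ ⟨S', rfl⟩
        have : (mat K (cm f A)).col S' = fun S : {S : Finset V // S ⊆ A} => F (S.1 ∪ S'.1) := by
          ext S
          exact hmat S S'
        rw [this]
        exact key S' F h
    _ ≤ Module.finrank K U := Submodule.finrank_map_le _ _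

/-- **a structured representation has a balanced cut of small rank** -/
theorem descend {s : ℕ} {f : Finset V → Prop} {F : Finset V → K}
    (hF : ∀ S, (f S → F S = 1) ∧ (¬ f S → F S = 0)) (hV : 4 ≤ Fintype.card V)
    {τ : VTree V} {W : Submodule K (Finset V → K)} (h : Structured K s τ W) :
    τ.Ok → ∀ B : Finset V, Disjoint τ.vars B → τ.vars ∪ B = univ →
      F ∈ prodSpan (addOne W) (Dep K B) → 2 * Fintype.card V < 3 * τ.vars.card →
      ∃ A : Finset V, Fintype.card V ≤ 3 * A.card ∧ 3 * A.card ≤ 2 * Fintype.card V ∧
        rk K (cm f A) ≤ s + 1 := by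
  induction h with
  | leaf v W hs h =>
    intro _ B _ _ _ hc
    simp only [VTree.vars, card_singleton] at hc
    omega
  | node l r Wl Wr W hl hr hs h ihl ihr =>
    intro hok B hdis huniv hmem hc
    obtain ⟨hokl, hokr, hlr⟩ := hok
    simp only [VTree.vars] at hdis huniv hc
    have hcard : (l.vars ∪ r.vars).card = l.vars.card + r.vars.card := card_union_of_disjoint hlr
    -- one child
    have child : ∀ (c : VTree V) (Wc : Submodule K (Finset V → K)) (C : Finset V),
        Structured K s c Wc → Module.finrank K Wc ≤ s → c.Ok → Disjoint c.vars C →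
        c.vars ∪ C = univ → F ∈ prodSpan (addOne Wc) (Dep K C) →
        Fintype.card V ≤ 3 * c.vars.card →
        (c.Ok → ∀ B : Finset V, Disjoint c.vars B → c.vars ∪ B = univ →
          F ∈ prodSpan (addOne Wc) (Dep K B) → 2 * Fintype.card V < 3 * c.vars.card →
          ∃ A : Finset V, Fintype.card V ≤ 3 * A.card ∧ 3 * A.card ≤ 2 * Fintype.card V ∧
            rk K (cm f A) ≤ s + 1) →
        ∃ A : Finset V, Fintype.card V ≤ 3 * A.card ∧ 3 * A.card ≤ 2 * Fintype.card V ∧
          rk K (cm f A) ≤ s + 1 := by
      intro c Wc C hst hdim hokc hdc huc hmc hbal ih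
      by_cases hbig : 2 * Fintype.card V < 3 * c.vars.card
      · exact ih hokc C hdc huc hmc hbig
      · refine ⟨c.vars, hbal, by omega, ?_⟩
        have hC : C = c.varsᶜ := by
          ext v
          rw [mem_compl]
          constructor
          · intro hv hv'
            exact disjoint_left.1 hdc hv' hv
          · intro hv
            have := mem_univ v
            rw [← huc, mem_union] at this
            exact this.resolve_left hv
        rw [hC] at hmc
        exact (rk_le_of_prodSpan hF (addOne_Dep hst.dep) hmc).trans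
          ((finrank_addOne Wc).trans (by omega))
    have dims : ∀ {c : VTree V} {Wc : Submodule K (Finset V → K)}, Structured K s c Wc →
        Module.finrank K Wc ≤ s := by
      intro c Wc hst
      cases hst with
      | leaf _ _ hs _ => exact hs
      | node _ _ _ _ _ _ _ hs _ => exact hs
    rcases le_total r.vars.card l.vars.card with hle | hle
    · refine child l Wl (r.vars ∪ B) hl (dims hl) hokl ?_ ?_ (step_left h hr.dep hmem) (by omega)
        ihl
      · rw [disjoint_union_right]
        exact ⟨hlr, disjoint_of_subset_left subset_union_left hdis⟩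
      · rw [← union_assoc, huniv]
    · refine child r Wr (l.vars ∪ B) hr (dims hr) hokr ?_ ?_ (step_left ?_ hl.dep hmem) (by omega)
        ihr
      · rw [disjoint_union_right]
        exact ⟨hlr.symm, disjoint_of_subset_left subset_union_right hdis⟩
      · rw [← union_assoc, union_comm r.vars, huniv]
      · rw [prodSpan_comm]
        exact h

end

end Pool.Agent.L5helper18.DD
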